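import Pool.Agent.P.MP_f8a98e_co.Psi

/-! Two term asymptotics of the densities with an explicit error. -/

namespace Pool.Agent.P.MP_f8a98e_co

open Finset Complex

noncomputable def phi (m : ℕ) (t : ℝ) : ℝ := fF ∅ m t * xx ^ m
noncomputable def ee (t : ℝ) (m : ℕ) : ℝ := (-I * ((xx * zz t) ^ m / m.factorial)).re / om
noncomputable def al (t : ℝ) : ℝ := Real.exp (xx * t / 2) * Real.sin (th * (1 - t))
noncomputable def be (t : ℝ) : ℝ := Real.exp (-(xx * t)) * Real.sin (2 * (th * (1 - t)))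

lemma cv_phi (t : ℝ) (m : ℕ) : cv cc (fun j => phi j t) m = ee t m := by
  have : -I * ((xx * zz t) ^ m / m.factorial) =
      ((xx ^ m / m.factorial : ℝ) : ℂ) * (-I * zz t ^ m) := by
    push_cast
    ring
  have h2 : xx ^ m / m.factorial * (-I * zz t ^ m).re / om =
      (-I * zz t ^ m).re / m.factorial * (xx ^ m / om) := by ring
  rw [ee, this, re_ofReal_mul, h2, ← (conv m).1, cv, sum_mul]
  refine sum_congr rfl fun p hp => ?_
  rw [← mem_antidiagonal.1 hp, cc, phi, pow_add]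
  ring

lemma zz_eq (r t : ℝ) :
    (r : ℂ) * (xx * zz t) = (r * (xx * t / 2) : ℝ) + (r * (th * (1 - t)) : ℝ) * I := by
  rw [← xx_om, zz]
  push_cast
  ring

lemma exp_pi_le : Real.exp Real.pi ≤ 23.4 := by
  have h1 : Real.exp Real.pi ≤ Real.exp (3 + 0.1416) :=
    Real.exp_le_exp.2 (by linarith [Real.pi_lt_d4])
  have h2 : Real.exp 3 = Real.exp 1 ^ 3 := by rw [← Real.exp_nat_mul]; norm_num
  have h3 : Real.exp 1 ^ 3 ≤ 2.7182818286 ^ 3 :=
    pow_le_pow_left₀ (Real.exp_pos _).le Real.exp_one_lt_d9.le _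
  have h4 : Real.exp 0.1416 ≤ 1 / (1 - 0.1416) :=
    Real.exp_bound_div_one_sub_of_interval (by norm_num) (by norm_num)
  rw [Real.exp_add, h2] at h1
  refine h1.trans ((mul_le_mul h3 h4 (Real.exp_pos _).le (by positivity)).trans ?_)
  norm_num

lemma nb_ee (t : ℝ) (h0 : 0 ≤ t) (h1 : t ≤ 1) : Nb (ee t) 27.03 := by
  have hz : ‖(xx * zz t : ℂ)‖ ≤ th := by
    have h := zz_eq 1 t
    rw [ofReal_one, one_mul, one_mul, one_mul] at h
    rw [h, ← abs_of_pos (show 0 < th by linarith [th_bd.1]), ← abs_norm, ← sq_le_sq,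
      Complex.sq_norm, normSq_add_mul_I, abs_of_pos (show 0 < th by linarith [th_bd.1]), ← xx_om]
    simp only [mul_pow, om_sq]
    nlinarith [mul_nonneg (sq_nonneg xx) (mul_nonneg h0 (sub_nonneg.2 h1)),
      mul_nonneg (sq_nonneg xx) h0]
  intro N
  have h2 : ∀ j, |ee t j| * 3 ^ j ≤ Real.pi ^ j / j.factorial / om := by
    intro j
    rw [ee, abs_div, abs_of_pos om_pos, div_mul_eq_mul_div]
    refine div_le_div_of_nonneg_right ?_ om_pos.le
    refine (mul_le_mul_of_nonneg_right (abs_re_le_norm _) (by positivity)).trans ?_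
    rw [norm_mul, norm_neg, norm_I, one_mul, norm_div, norm_pow, Complex.norm_natCast,
      div_mul_eq_mul_div, ← mul_pow]
    refine div_le_div_of_nonneg_right (pow_le_pow_left₀ (by positivity) ?_ _) (by positivity)
    unfold th at hz
    linarith
  refine (sum_le_sum fun j _ => h2 j).trans ?_
  rw [← sum_div, div_le_iff₀ om_pos]
  have := Real.sum_le_exp_of_nonneg Real.pi_pos.le N
  linarith [exp_pi_le, om_bd.1]

lemma tsum_ee (r t : ℝ) : ∑' m, ee t m * r ^ m =
    Real.exp (r * (xx * t / 2)) * Real.sin (r * (th * (1 - t))) / om := by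
  have h := NormedSpace.expSeries_div_hasSum_exp ((r : ℂ) * (xx * zz t))
  rw [← exp_eq_exp_ℂ] at h
  have h2 := (hasSum_re (h.mul_left (-I))).div_const om
  have h3 : (-I * exp ((r : ℂ) * (xx * zz t))).re =
      Real.exp (r * (xx * t / 2)) * Real.sin (r * (th * (1 - t))) := by
    rw [zz_eq, neg_mul, neg_re, I_mul_re, neg_neg, exp_im]
    simp only [add_re, ofReal_re, mul_I_re, ofReal_im, add_im, mul_I_im, neg_zero, add_zero,
      zero_add]
  rw [← h3, ← h2.tsum_eq]
  refine tsum_congr fun m => ?_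
  have : -I * (((r : ℂ) * (xx * zz t)) ^ m / m.factorial) =
      ((r ^ m : ℝ) : ℂ) * (-I * ((xx * zz t) ^ m / m.factorial)) := by
    push_cast
    ring
  rw [this, re_ofReal_mul, ee]
  ring

lemma psi_three (N : ℕ) : ∑ j ∈ range N, |psi (j + 1)| * 3 ^ (j + 1) ≤ 0.86 :=
  (psi_sum 3 (by norm_num) le_rfl N).trans (by norm_num)

lemma nb_psi : Nb psi 1.86 := by
  intro N
  cases N with
  | zero => norm_num
  | succ N =>
    rw [sum_range_succ', psi_zero]
    have := psi_three N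
    norm_num at this ⊢
    linarith

lemma tsum_psi (r c : ℝ) (hr : |r| ≤ 3)
    (h : ∀ N, ∑ j ∈ range N, |psi (j + 1)| * |r| ^ (j + 1) ≤ c) :
    |∑' j, psi j * r ^ j - 1| ≤ c := by
  rw [(nb_psi.summ hr).of_norm.tsum_eq_zero_add, psi_zero, pow_zero, mul_one,
    add_sub_cancel_left]
  refine tsum_abs_le fun N => ?_
  simpa only [abs_mul, abs_pow] using h N

theorem asym : ∃ a b : ℝ, 0.758 ≤ a ∧ a ≤ 0.981 ∧ 0.309 ≤ b ∧ b ≤ 0.691 ∧
    ∀ (m : ℕ) (t : ℝ), 0 ≤ t → t ≤ 1 →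
      |phi m t - (a * al t - (-1 / 2) ^ m * (b * be t))| ≤ 120 * (1 / 3) ^ m := by
  have p1 := abs_le.1 (tsum_psi 1 0.128 (by norm_num) fun N =>
    (psi_sum _ (by norm_num) (by norm_num) N).trans (by norm_num))
  have p2 := abs_le.1 (tsum_psi (-2) 0.381 (by norm_num) fun N =>
    (psi_sum _ (by norm_num) (by norm_num) N).trans (by norm_num))
  set P1 := ∑' j, psi j * 1 ^ j
  set P2 := ∑' j, psi j * (-2) ^ j
  have ho := om_bd
  have q1 : 0 < P1 := by linarith [p1.1]
  have q2 : 0 < P2 := by linarith [p2.1]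
  have hop := om_pos
  refine ⟨20 / 27 / (om * P1), 10 / 27 / (om * P2), ?_, ?_, ?_, ?_, fun m t h0 h1 => ?_⟩
  · rw [le_div_iff₀ (by positivity)]
    nlinarith [ho.1, ho.2, p1.1, p1.2]
  · rw [div_le_iff₀ (by positivity)]
    nlinarith [ho.1, ho.2, p1.1, p1.2]
  · rw [le_div_iff₀ (by positivity)]
    nlinarith [ho.1, ho.2, p2.1, p2.2]
  · rw [div_le_iff₀ (by positivity)]
    nlinarith [ho.1, ho.2, p2.1, p2.2]
  obtain ⟨η, e1, e2⟩ := exists_eta cc KK (fun j => phi j t) (by norm_num [KK])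
  have e3 : ∀ n, cv psi η n = ee t n := fun n => (e2 n).trans (cv_phi t n)
  have hη := nb_eta psi η (ee t) e3 psi_zero _ _ psi_three (nb_ee t h0 h1) (by norm_num)
  have c1 := cauchy e3 nb_psi hη (r := 1) (by norm_num)
  have c2 := cauchy e3 nb_psi hη (r := -2) (by norm_num)
  rw [tsum_ee] at c1 c2
  have d1 : 20 / 27 * ∑' j, η j * 1 ^ j = 20 / 27 / (om * P1) * al t := by
    rw [one_mul, one_mul, ← al] at c1
    rw [(eq_div_iff q1.ne').2 ((mul_comm _ _).trans c1)]
    field_simp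
  have d2 : 10 / 27 * ((-1 / 2) ^ m * ∑' j, η j * (-2) ^ j) =
      -((-1 / 2) ^ m * (10 / 27 / (om * P2) * be t)) := by
    rw [show -2 * (xx * t / 2) = -(xx * t) by ring, neg_mul, Real.sin_neg, mul_neg, ← be] at c2
    rw [(eq_div_iff q2.ne').2 ((mul_comm _ _).trans c2)]
    field_simp
  have := cv_KK_approx hη m
  rw [e1, d1, d2, ← sub_eq_add_neg] at this
  refine this.trans (mul_le_mul_of_nonneg_right (by norm_num) (by positivity))

end Pool.Agent.P.MP_f8a98e_co
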