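import Pool.Agent.P.MP_f8a98e_co.Count

/-! Densities attached to the counts and the integral formula for `dd {k} n`. -/

namespace Pool.Agent.P.MP_f8a98e_co

open Finset

/-- Bernstein type polynomial of a coefficient sequence -/
noncomputable def bern (n : ℕ) (c : ℕ → ℝ) (t : ℝ) : ℝ :=
  ∑ p ∈ antidiagonal n, c p.1 * (t ^ p.1 / p.1.factorial) * ((1 - t) ^ p.2 / p.2.factorial)

lemma hd_pow (a : ℕ) (t : ℝ) :
    HasDerivAt (fun t : ℝ => t ^ (a + 1) / ((a + 1).factorial : ℝ)) (t ^ a / a.factorial) t := by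
  refine ((hasDerivAt_pow (a + 1) t).div_const _).congr_deriv ?_
  rw [Nat.factorial_succ]
  push_cast
  have : (a.factorial : ℝ) ≠ 0 := by positivity
  field_simp

lemma hd_pow' (a : ℕ) (t : ℝ) :
    HasDerivAt (fun t : ℝ => (1 - t) ^ (a + 1) / ((a + 1).factorial : ℝ))
      (-((1 - t) ^ a / a.factorial)) t := by
  have h := (hd_pow a (1 - t)).comp t ((hasDerivAt_id t).const_sub 1)
  exact h.congr_deriv (by ring)

/-- derivative of `t ^ a / a!` -/
noncomputable def dp (a : ℕ) (t : ℝ) : ℝ :=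
  match a with
  | 0 => 0
  | a + 1 => t ^ a / a.factorial

lemma hd_dp (a : ℕ) (t : ℝ) :
    HasDerivAt (fun t : ℝ => t ^ a / (a.factorial : ℝ)) (dp a t) t := by
  cases a with
  | zero => simpa [dp] using hasDerivAt_const t (1 : ℝ)
  | succ a => exact hd_pow a t

lemma hd_dp' (a : ℕ) (t : ℝ) :
    HasDerivAt (fun t : ℝ => (1 - t) ^ a / (a.factorial : ℝ)) (-dp a (1 - t)) t := by
  have h := (hd_dp a (1 - t)).comp t ((hasDerivAt_id t).const_sub 1)
  exact h.congr_deriv (by ring)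

lemma bern_deriv (n : ℕ) (c d : ℕ → ℝ) (h : ∀ a ≤ n, d a = c (a + 1) - c a) (t : ℝ) :
    HasDerivAt (bern (n + 1) c) (bern n d t) t := by
  have h1 : HasDerivAt (bern (n + 1) c) (∑ p ∈ antidiagonal (n + 1),
      (c p.1 * dp p.1 t * ((1 - t) ^ p.2 / p.2.factorial) +
        c p.1 * (t ^ p.1 / p.1.factorial) * (-dp p.2 (1 - t)))) t :=
    HasDerivAt.fun_sum fun p _ => ((hd_dp p.1 t).const_mul (c p.1)).mul (hd_dp' p.2 t)
  refine h1.congr_deriv ?_
  rw [sum_add_distrib, Nat.sum_antidiagonal_succ, Nat.sum_antidiagonal_succ' , bern]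
  simp only [dp, mul_zero, zero_mul, zero_add, neg_zero]
  rw [← sum_add_distrib]
  refine sum_congr rfl fun p hp => ?_
  rw [h p.1 (by have := mem_antidiagonal.1 hp; omega)]
  ring

lemma bern_zero (n : ℕ) (c : ℕ → ℝ) : bern n c 0 = c 0 / n.factorial := by
  rw [bern, sum_eq_single (0, n)]
  · simp [div_eq_mul_inv]
  · rintro ⟨a, b⟩ hp hne
    have h : a ≠ 0 := by
      rintro rfl
      exact hne (by simpa using mem_antidiagonal.1 hp)
    simp [h]
  · simp

lemma bern_one (n : ℕ) (c : ℕ → ℝ) : bern n c 1 = c n / n.factorial := by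
  rw [bern, sum_eq_single (n, 0)]
  · simp [div_eq_mul_inv]
  · rintro ⟨a, b⟩ hp hne
    have h : b ≠ 0 := by
      rintro rfl
      exact hne (by simpa using mem_antidiagonal.1 hp)
    simp [h]
  · simp

lemma bern_cont (n : ℕ) (c : ℕ → ℝ) : Continuous (bern n c) := by
  unfold bern
  fun_prop

lemma bern_add (n : ℕ) (c d : ℕ → ℝ) (t : ℝ) :
    bern n (fun a => c a + d a) t = bern n c t + bern n d t := by
  simp only [bern, ← sum_add_distrib, add_mul]

lemma bern_neg (n : ℕ) (c : ℕ → ℝ) (t : ℝ) : bern n (fun a => -c a) t = -bern n c t := by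
  simp only [bern, ← sum_neg_distrib, neg_mul]

lemma bern_eq_zero (n : ℕ) (c : ℕ → ℝ) (h : ∀ a ≤ n, c a = 0) (t : ℝ) : bern n c t = 0 :=
  sum_eq_zero fun p hp => by
    rw [h p.1 (by have := mem_antidiagonal.1 hp; omega), zero_mul, zero_mul]

lemma bern_int (n : ℕ) (c : ℕ → ℝ) :
    ∫ t in (0 : ℝ)..1, bern n c t = (∑ b ∈ range (n + 1), c b) / (n + 1).factorial := by
  rw [intervalIntegral.integral_eq_sub_of_hasDerivAt
    (fun t _ => bern_deriv n (fun a => ∑ b ∈ range a, c b) c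
      (fun a _ => by rw [sum_range_succ]; ring) t) ((bern_cont _ _).intervalIntegrable _ _),
    bern_zero, bern_one]
  simp

/-- density with a final descent -/
noncomputable def fF (I : Set ℕ) (m : ℕ) : ℝ → ℝ := bern m fun a => cF I m a
/-- density without a final descent -/
noncomputable def fG (I : Set ℕ) (m : ℕ) : ℝ → ℝ := bern m fun a => cG I m a

lemma fF_cont (I : Set ℕ) (m : ℕ) : Continuous (fF I m) := bern_cont _ _
lemma fG_cont (I : Set ℕ) (m : ℕ) : Continuous (fG I m) := bern_cont _ _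

lemma fG_deriv (I : Set ℕ) (m : ℕ) (t : ℝ) :
    HasDerivAt (fG I (m + 1)) (fF I m t + fG I m t) t := by
  rw [fF, fG, fG, ← bern_add]
  refine bern_deriv _ _ _ (fun a ha => ?_) t
  rw [cG_succ _ _ _ (by omega), cG_succ _ _ _ (by omega), sum_range_succ]
  push_cast
  ring

lemma fG_at (I : Set ℕ) (m : ℕ) : fG I (m + 1) 0 = 0 := by
  rw [fG, bern_zero, cG_succ _ _ _ (by omega)]
  simp

lemma fF_deriv (I : Set ℕ) (m : ℕ) (hI : m + 1 ∉ I) (t : ℝ) :
    HasDerivAt (fF I (m + 1)) (-fG I m t) t := by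
  rw [fF, fG, ← bern_neg]
  refine bern_deriv _ _ _ (fun a ha => ?_) t
  rw [cF_succ _ _ _ (by omega) hI, cF_succ _ _ _ (by omega) hI,
    sum_eq_sum_Ico_succ_bot (show a < m + 1 by omega)]
  push_cast
  ring

lemma fF_at (I : Set ℕ) (m : ℕ) (hI : m + 1 ∉ I) : fF I (m + 1) 1 = 0 := by
  rw [fF, bern_one, cF_succ _ _ _ (by omega) hI]
  simp

lemma fF_new (m : ℕ) (t : ℝ) : HasDerivAt (fF {m + 1} (m + 1)) (-fF ∅ m t) t := by
  rw [fF, fF, ← bern_neg]
  refine bern_deriv _ _ _ (fun a ha => ?_) t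
  rw [cF_new _ _ (by omega), cF_new _ _ (by omega),
    sum_eq_sum_Ico_succ_bot (show a < m + 1 by omega)]
  push_cast
  ring

lemma fF_new_at (m : ℕ) : fF {m + 1} (m + 1) 1 = 0 := by
  rw [fF, bern_one, cF_new _ _ (by omega)]
  simp

lemma fG_new (m : ℕ) (t : ℝ) : fG {m + 1} (m + 1) t = 0 :=
  bern_eq_zero _ _ (fun a ha => by rw [cG_new _ _ ha]; simp) t

lemma fF_zero (t : ℝ) : fF ∅ 0 t = 0 :=
  bern_eq_zero _ _ (fun a _ => by rw [cF_zero]; simp) t

lemma fG_zero (t : ℝ) : fG ∅ 0 t = 1 := by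
  simp [fG, bern, cG_zero]

lemma hd_refl {u : ℝ → ℝ} {u' t : ℝ} (h : HasDerivAt u u' (1 - t)) :
    HasDerivAt (fun s => u (1 - s)) (-u') t :=
  (h.comp t ((hasDerivAt_id t).const_sub 1)).congr_deriv (by ring)

/-- the pairing between a left part and a right part -/
noncomputable def pairing (k s r : ℕ) (t : ℝ) : ℝ :=
  fF {k} s t * fG ∅ r (1 - t) + fG {k} s t * (fF ∅ r (1 - t) + fG ∅ r (1 - t))

lemma pairing_cont (k s r : ℕ) : Continuous (pairing k s r) := by
  have := fF_cont {k} s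
  have := fG_cont {k} s
  have := fF_cont ∅ r
  have := fG_cont ∅ r
  unfold pairing
  fun_prop

lemma pairing_step (k s r : ℕ) (h : k ≤ s) :
    ∫ t in (0 : ℝ)..1, pairing k (s + 1) r t = ∫ t in (0 : ℝ)..1, pairing k s (r + 1) t := by
  have hk : s + 1 ∉ ({k} : Set ℕ) := by
    rw [Set.mem_singleton_iff]
    omega
  have key : ∀ t, HasDerivAt (fun t => fF {k} (s + 1) t * fF ∅ (r + 1) (1 - t) -
      fG {k} (s + 1) t * fG ∅ (r + 1) (1 - t))
      (pairing k (s + 1) r t - pairing k s (r + 1) t) t := by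
    intro t
    refine (((fF_deriv _ s hk t).mul (hd_refl (fF_deriv ∅ r (by simp) (1 - t)))).sub
      ((fG_deriv _ s t).mul (hd_refl (fG_deriv ∅ r (1 - t))))).congr_deriv ?_
    unfold pairing
    ring
  have h1 := intervalIntegral.integral_eq_sub_of_hasDerivAt (a := 0) (b := 1)
    (fun t _ => key t) (((pairing_cont _ _ _).sub (pairing_cont _ _ _)).intervalIntegrable _ _)
  rw [intervalIntegral.integral_sub ((pairing_cont _ _ _).intervalIntegrable _ _)
    ((pairing_cont _ _ _).intervalIntegrable _ _)] at h1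
  simp only [sub_self, sub_zero, fF_at _ s hk, fG_at, fF_at ∅ r (by simp), zero_mul,
    mul_zero] at h1
  linarith

lemma pairing_iter (k j r : ℕ) :
    ∫ t in (0 : ℝ)..1, pairing k (k + j) r t = ∫ t in (0 : ℝ)..1, pairing k k (r + j) t := by
  induction j generalizing r with
  | zero => rfl
  | succ j ih =>
    rw [← add_assoc, pairing_step _ _ _ (by omega), ih, add_assoc, add_comm 1 j]

theorem dd_int (m j : ℕ) :
    (dd {m + 1} (m + 1 + j + 1) : ℝ) / (m + 1 + j + 1).factorial =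
      ∫ t in (0 : ℝ)..1, fF ∅ m t * fF ∅ (j + 1) (1 - t) := by
  have h0 : (dd {m + 1} (m + 1 + j + 1) : ℝ) / (m + 1 + j + 1).factorial =
      ∫ t in (0 : ℝ)..1, pairing (m + 1) (m + 1 + j) 0 t := by
    simp only [pairing, fF_zero, fG_zero, mul_one, zero_add]
    simp only [fF, fG, ← bern_add]
    rw [bern_int, dd_eq]
    push_cast
    rfl
  rw [h0, pairing_iter, zero_add]
  simp only [pairing, fG_new, zero_mul, add_zero]
  have key : ∀ t, HasDerivAt (fun t => fF {m + 1} (m + 1) t * fF ∅ (j + 1) (1 - t))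
      (fF {m + 1} (m + 1) t * fG ∅ j (1 - t) - fF ∅ m t * fF ∅ (j + 1) (1 - t)) t := by
    intro t
    refine ((fF_new m t).mul (hd_refl (fF_deriv ∅ j (by simp) (1 - t)))).congr_deriv ?_
    ring
  have c1 : Continuous fun t => fF {m + 1} (m + 1) t * fG ∅ j (1 - t) := by
    have := fF_cont {m + 1} (m + 1)
    have := fG_cont ∅ j
    fun_prop
  have c2 : Continuous fun t => fF ∅ m t * fF ∅ (j + 1) (1 - t) := by
    have := fF_cont ∅ m
    have := fF_cont ∅ (j + 1)
    fun_prop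
  have h1 := intervalIntegral.integral_eq_sub_of_hasDerivAt (a := 0) (b := 1)
    (fun t _ => key t) ((c1.sub c2).intervalIntegrable _ _)
  rw [intervalIntegral.integral_sub (c1.intervalIntegrable _ _) (c2.intervalIntegrable _ _)] at h1
  simp only [sub_zero, fF_new_at, fF_at ∅ j (by simp), zero_mul, mul_zero] at h1
  linarith

end Pool.Agent.P.MP_f8a98e_co
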