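import Pool.Agent.P.MP_f8a98e_co.Count

/-! The finite computation, for `n ≤ 90` and `i ≤ 33`. -/

namespace Pool.Agent.P.MP_f8a98e_co

open Finset

noncomputable def frc (x : ℕ) (k : ℕ → Bool) : Bool :=
  Nat.casesOn (motive := fun _ => Bool) x (k 0) fun n => k n.succ

lemma frc_eq (x : ℕ) (k : ℕ → Bool) : frc x k = k x := by cases x <;> rfl

/-- running sums of two lists -/
noncomputable def pre2 (F : List ℕ) : List ℕ → ℕ → (List ℕ → ℕ → Bool) → Bool :=
  List.rec (fun _ s k => k [s] s)
    (fun a _ ih G s k => List.casesOn (motive := fun _ => Bool) G false fun b G' =>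
      frc (Nat.add (Nat.add s a) b) fun s' => ih G' s' fun r t => k (s :: r) t) F

/-- sums of the final segments -/
noncomputable def suf (G : List ℕ) : (List ℕ → ℕ → Bool) → Bool :=
  List.rec (fun k => k [0] 0)
    (fun b _ ih k => ih fun r h => frc (Nat.add b h) fun h' => k (h' :: r) h') G

noncomputable def zer (F : List ℕ) : List ℕ := List.rec [] (fun _ _ r => 0 :: r) F

noncomputable def run (c : ℕ) : List ℕ → List ℕ → List ℕ → (List ℕ → Bool) → Bool :=
  Nat.rec (fun _ _ acc k => k acc)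
    (fun _ ih F G acc k => pre2 F G 0 fun G' t => suf G fun F' _ => ih F' G' (t :: acc) k) c

noncomputable def cmp (ev : Bool) (a b c d W V : ℕ) : Bool :=
  cond ev (Nat.blt (Nat.add (Nat.mul (Nat.mul b c) W) V) (Nat.mul (Nat.mul a d) W))
    (Nat.blt (Nat.add (Nat.mul (Nat.mul a d) W) V) (Nat.mul (Nat.mul b c) W))

noncomputable def walk (ev : Bool) (W V c : ℕ) : List ℕ → List ℕ → List ℕ → List ℕ → Bool :=
  Nat.rec (fun _ _ _ _ => true)
    (fun _ ih r0 r1 r2 r3 =>
      List.casesOn (motive := fun _ => Bool) r0 false fun a r0 =>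
      List.casesOn (motive := fun _ => Bool) r1 false fun b r1 =>
      List.casesOn (motive := fun _ => Bool) r2 false fun c r2 =>
      List.casesOn (motive := fun _ => Bool) r3 false fun d r3 =>
        cond (cmp ev a b c d W V) (ih r0 r1 r2 r3) false) c

/-- number of values of `n` to examine -/
def cnt (i : ℕ) : ℕ := 88 - 2 * i - if i = 2 then 1 else 0

noncomputable def test (i W V : ℕ) (r0 r1 r2 r3 : List ℕ) : Bool :=
  cond (Nat.blt i 2) true
    (cond (walk (Nat.beq (i % 2) 0) W V 1 r0 r1 r2 r3)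
      (walk (Nat.beq (i % 2) 0) 1 0 (cnt i) r0 r1 r2 r3) false)

noncomputable def loop (W V c : ℕ) :
    ℕ → List ℕ → List ℕ → List ℕ → List ℕ → List ℕ → Bool :=
  Nat.rec (fun _ _ _ _ _ _ => true)
    (fun _ ih m F G r0 r1 r2 => suf F fun F1 _ => run (89 - m) F1 (zer F1) [] fun r3 =>
      cond (test (m - 2) W V r0 r1 r2 r3)
        (pre2 F G 0 fun G' _ => suf G fun F' _ => frc (m + 1) fun m' => ih m' F' G' r1 r2 r3)
        false) c

def WW : ℕ := 1209 ^ 178 * 2 ^ 54
def VV : ℕ := 30000 * (Nat.factorial 90) ^ 2 * 1000 ^ 178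

theorem loop_ok : (frc WW fun W => frc VV fun V => loop W V 36 0 [0] [1] [] [] []) = true := by
  decide +kernel

end Pool.Agent.P.MP_f8a98e_co
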