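import Pool.Agent.P.MP_f8a98e_co.Bern

/-! The generating function identity for the densities. -/

namespace Pool.Agent.P.MP_f8a98e_co

open Finset Complex

noncomputable def om : ℝ := √3 / 2
noncomputable def th : ℝ := Real.pi / 3
noncomputable def xx : ℝ := th / om
noncomputable def zeta : ℂ := om + I / 2
noncomputable def zz (t : ℂ) : ℂ := t * (1 / 2 - om * I) + om * I
noncomputable def gam (i : ℕ) : ℝ := (zeta * (om * I) ^ i).re / i.factorial

lemma om_pos : 0 < om := by unfold om; positivity
lemma om_sq : om ^ 2 = 3 / 4 := by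
  unfold om
  rw [div_pow, Real.sq_sqrt (by norm_num)]
  norm_num

lemma eq_of_hd {u v u' : ℝ → ℝ} (hu : ∀ t, HasDerivAt u (u' t) t)
    (hv : ∀ t, HasDerivAt v (u' t) t) (c : ℝ) (h : u c = v c) (t : ℝ) : u t = v t := by
  have h1 : ∀ t, HasDerivAt (fun t => u t - v t) 0 t := fun t =>
    ((hu t).sub (hv t)).congr_deriv (sub_self _)
  have := is_const_of_deriv_eq_zero (fun t => (h1 t).differentiableAt)
    (fun t => (h1 t).deriv) t c
  linarith

lemma hd_zz (c : ℂ) (m : ℕ) (t : ℝ) :
    HasDerivAt (fun t : ℝ => (c * zz t ^ (m + 1)).re / (m + 1).factorial)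
      ((c * (1 / 2 - om * I) * zz t ^ m).re / m.factorial) t := by
  have h0 : HasDerivAt zz (1 / 2 - om * I) (t : ℂ) := by
    have := ((hasDerivAt_id (t : ℂ)).mul_const (1 / 2 - om * I)).add_const (om * I)
    rw [one_mul] at this
    exact this
  have h1 : HasDerivAt (fun t : ℂ => c * zz t ^ (m + 1))
      (((m + 1 : ℕ) : ℝ) * (c * (1 / 2 - om * I) * zz t ^ m)) (t : ℂ) :=
    ((h0.pow (m + 1)).const_mul c).congr_deriv (by push_cast; ring)
  refine (h1.real_of_complex.div_const _).congr_deriv ?_
  rw [re_ofReal_mul, Nat.factorial_succ]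
  have : (m.factorial : ℝ) ≠ 0 := by positivity
  push_cast
  field_simp

theorem conv (m : ℕ) :
    (∀ t : ℝ, ∑ p ∈ antidiagonal m, gam p.1 * fF ∅ p.2 t = (-I * zz t ^ m).re / m.factorial) ∧
    (∀ t : ℝ, ∑ p ∈ antidiagonal m, gam p.1 * fG ∅ p.2 t = (zeta * zz t ^ m).re / m.factorial) := by
  induction m with
  | zero => simp [fF_zero, fG_zero, gam]
  | succ m ih =>
    constructor
    · intro t
      rw [Nat.sum_antidiagonal_succ', fF_zero, mul_zero, zero_add]
      refine eq_of_hd (u := fun t => ∑ p ∈ antidiagonal m, gam p.1 * fF ∅ (p.2 + 1) t)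
        (fun t => ?_) (hd_zz (-I) m) 1 ?_ t
      · refine (HasDerivAt.fun_sum fun p _ =>
          (fF_deriv ∅ p.2 (by simp) t).const_mul (gam p.1)).congr_deriv ?_
        simp only [mul_neg, sum_neg_distrib]
        rw [ih.2, ← neg_div, ← neg_re]
        congr 2
        unfold zeta
        linear_combination (-(om : ℂ) * zz t ^ m) * I_mul_I
      · have : zz ((1 : ℝ) : ℂ) ^ (m + 1) = (((1 / 2 : ℝ) ^ (m + 1) : ℝ) : ℂ) := by
          unfold zz
          push_cast
          ring
        rw [this]
        simp [fF_at ∅ _ (Set.notMem_empty _), -ofReal_pow]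
    · intro t
      rw [Nat.sum_antidiagonal_succ', fG_zero]
      refine eq_of_hd (u := fun t => gam (m + 1) * 1 +
          ∑ p ∈ antidiagonal m, gam p.1 * fG ∅ (p.2 + 1) t)
        (fun t => ?_) (hd_zz zeta m) 0 ?_ t
      · refine ((HasDerivAt.fun_sum fun p _ =>
          (fG_deriv ∅ p.2 t).const_mul (gam p.1)).const_add _).congr_deriv ?_
        simp only [mul_add, sum_add_distrib]
        rw [ih.1, ih.2, ← add_div, ← add_re]
        congr 2
        have h : (om : ℂ) ^ 2 = 3 / 4 := by
          rw [← ofReal_pow, om_sq]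
          push_cast
          rfl
        unfold zeta
        linear_combination (I * zz t ^ m) * h + ((om : ℂ) / 2 * zz t ^ m) * I_mul_I
      · simp [fG_at, gam, zz]

end Pool.Agent.P.MP_f8a98e_co
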