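import Pool.Agent.P.MP_f8a98e_co.Defs

/-! Counting permutations by double descent set, last step and last value. -/

namespace Pool.Agent.P.MP_f8a98e_co

open Finset Equiv

/-- append the value `a` -/
def ext {m : ℕ} (a : Fin (m + 2)) (w : Perm (Fin (m + 1))) : Perm (Fin (m + 2)) :=
  (finSuccEquiv' (Fin.last (m + 1))).trans (w.optionCongr.trans (finSuccEquiv' a).symm)

lemma ext_last {m : ℕ} (a : Fin (m + 2)) (w : Perm (Fin (m + 1))) :
    ext a w (Fin.last (m + 1)) = a := by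
  simp [ext]

lemma ext_cast {m : ℕ} (a : Fin (m + 2)) (w : Perm (Fin (m + 1))) (i : Fin (m + 1)) :
    ext a w i.castSucc = a.succAbove (w i) := by
  have : finSuccEquiv' (Fin.last (m + 1)) i.castSucc = some i := by
    rw [← Fin.succAbove_last_apply, finSuccEquiv'_succAbove]
  simp [ext, this]

lemma ext_bij (m : ℕ) :
    Function.Bijective fun p : Fin (m + 2) × Perm (Fin (m + 1)) => ext p.1 p.2 := by
  rw [Fintype.bijective_iff_injective_and_card]
  refine ⟨?_, by simp [Fintype.card_perm, Nat.factorial_succ]⟩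
  rintro ⟨a, w⟩ ⟨b, v⟩ h
  have h' : ext a w = ext b v := h
  have hab : a = b := by rw [← ext_last a w, h', ext_last]
  subst hab
  refine Prod.ext rfl (Equiv.ext fun i => ?_)
  have := ext_cast a w i
  rw [h', ext_cast] at this
  exact (Fin.succAbove_right_injective this).symm

/-- step `j` (from index `j` to `j + 1`) is a descent -/
def des {n : ℕ} (w : Perm (Fin n)) (j : ℕ) : Prop :=
  ∃ h : j + 1 < n, w ⟨j + 1, h⟩ < w ⟨j, by omega⟩

lemma mem_DDes {n : ℕ} (w : Perm (Fin n)) (i : ℕ) :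
    i ∈ DDes w ↔ ∃ j, i = j + 2 ∧ des w j ∧ des w (j + 1) := by
  constructor
  · rintro ⟨h2, hn, h1, h3⟩
    obtain ⟨j, rfl⟩ : ∃ j, i = j + 2 := ⟨i - 2, by omega⟩
    exact ⟨j, rfl, ⟨by omega, h1⟩, ⟨by omega, h3⟩⟩
  · rintro ⟨j, rfl, ⟨h1, h2⟩, ⟨h3, h4⟩⟩
    exact ⟨by omega, by omega, h2, h4⟩

lemma des_ext {m : ℕ} (a : Fin (m + 2)) (w : Perm (Fin (m + 1))) (j : ℕ) :
    des (ext a w) j ↔ des w j ∨ (j = m ∧ (a : ℕ) ≤ w (Fin.last m)) := by
  have key : ∀ h : m + 1 < m + 2, (ext a w ⟨m + 1, h⟩ < ext a w ⟨m, by omega⟩ ↔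
      (a : ℕ) ≤ w (Fin.last m)) := by
    intro h
    have h1 : ext a w ⟨m + 1, h⟩ = a := ext_last a w
    have h2 : ext a w ⟨m, by omega⟩ = a.succAbove (w (Fin.last m)) := ext_cast a w (Fin.last m)
    rw [h1, h2, Fin.lt_succAbove_iff_le_castSucc, Fin.le_def, Fin.val_castSucc]
  have key2 : ∀ h : j + 1 < m + 1, (ext a w ⟨j + 1, by omega⟩ < ext a w ⟨j, by omega⟩ ↔
      w ⟨j + 1, h⟩ < w ⟨j, by omega⟩) := by
    intro h
    have h1 : ext a w ⟨j + 1, by omega⟩ = a.succAbove (w ⟨j + 1, h⟩) := ext_cast a w ⟨j + 1, h⟩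
    have h2 : ext a w ⟨j, by omega⟩ = a.succAbove (w ⟨j, by omega⟩) :=
      ext_cast a w ⟨j, by omega⟩
    rw [h1, h2, Fin.succAbove_lt_succAbove_iff]
  constructor
  · rintro ⟨h, h'⟩
    rcases eq_or_lt_of_le (show j ≤ m by omega) with rfl | hj
    · exact Or.inr ⟨rfl, (key h).1 h'⟩
    · exact Or.inl ⟨by omega, (key2 (by omega)).1 h'⟩
  · rintro (⟨h, h'⟩ | ⟨rfl, h⟩)
    · exact ⟨by omega, (key2 h).2 h'⟩
    · exact ⟨by omega, (key _).2 h⟩

/-- the last step is a descent -/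
def lastD {m : ℕ} (w : Perm (Fin (m + 1))) : Prop := ∃ j, j + 1 = m ∧ des w j

lemma lastD_ext {m : ℕ} (a : Fin (m + 2)) (w : Perm (Fin (m + 1))) :
    lastD (ext a w) ↔ (a : ℕ) ≤ w (Fin.last m) := by
  constructor
  · rintro ⟨j, hj, h⟩
    rcases (des_ext a w j).1 h with ⟨h', -⟩ | h'
    · omega
    · exact h'.2
  · intro h
    exact ⟨m, rfl, (des_ext a w m).2 (Or.inr ⟨rfl, h⟩)⟩

lemma le_of_mem_DDes {m : ℕ} (w : Perm (Fin (m + 1))) {i : ℕ} (h : i ∈ DDes w) : i ≤ m := by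
  obtain ⟨-, h, -⟩ := h
  omega

lemma DDes_ext {m : ℕ} (a : Fin (m + 2)) (w : Perm (Fin (m + 1))) (i : ℕ) :
    i ∈ DDes (ext a w) ↔ i ∈ DDes w ∨ (i = m + 1 ∧ lastD w ∧ (a : ℕ) ≤ w (Fin.last m)) := by
  simp only [mem_DDes, des_ext]
  constructor
  · rintro ⟨j, rfl, h1, h2⟩
    rcases h2 with h2 | ⟨h2, h3⟩
    · rcases h1 with h1 | ⟨h1, -⟩
      · exact Or.inl ⟨j, rfl, h1, h2⟩
      · obtain ⟨h, -⟩ := h2
        omega
    · rcases h1 with h1 | ⟨h1, -⟩
      · exact Or.inr ⟨by omega, ⟨j, h2, h1⟩, h3⟩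
      · omega
  · rintro (⟨j, rfl, h1, h2⟩ | ⟨rfl, ⟨j, hj, h1⟩, h2⟩)
    · exact ⟨j, rfl, Or.inl h1, Or.inl h2⟩
    · exact ⟨j, by omega, Or.inl h1, Or.inr ⟨hj, h2⟩⟩

open Classical in
/-- number of permutations with property `P` and last value `a` -/
noncomputable def cn (m : ℕ) (P : Perm (Fin (m + 1)) → Prop) (a : ℕ) : ℕ :=
  ∑ w : Perm (Fin (m + 1)), if P w ∧ (w (Fin.last m) : ℕ) = a then 1 else 0

open Classical in
lemma sum_cn (m : ℕ) (P : Perm (Fin (m + 1)) → Prop) (S : Finset ℕ) :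
    ∑ b ∈ S, cn m P b =
      ∑ w : Perm (Fin (m + 1)), if P w ∧ (w (Fin.last m) : ℕ) ∈ S then 1 else 0 := by
  unfold cn
  rw [sum_comm]
  refine sum_congr rfl fun w _ => ?_
  by_cases h : P w
  · simp [h]
  · simp [h]

open Classical in
lemma cn_succ (m : ℕ) (P : Perm (Fin (m + 2)) → Prop) (a : ℕ) (ha : a ≤ m + 1) :
    cn (m + 1) P a = ∑ w : Perm (Fin (m + 1)), if P (ext ⟨a, by omega⟩ w) then 1 else 0 := by
  unfold cn
  rw [← (ext_bij m).sum_comp, Fintype.sum_prod_type, sum_comm]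
  refine sum_congr rfl fun w _ => ?_
  rw [Fintype.sum_eq_single (⟨a, by omega⟩ : Fin (m + 2))]
  · simp [ext_last]
  · intro b hb
    rw [ext_last, if_neg]
    rintro ⟨-, h⟩
    exact hb (Fin.ext h)

/-- double descent set `I`, last step a descent -/
noncomputable def cF (I : Set ℕ) (m a : ℕ) : ℕ := cn m (fun w => DDes w = I ∧ lastD w) a
/-- double descent set `I`, last step not a descent -/
noncomputable def cG (I : Set ℕ) (m a : ℕ) : ℕ := cn m (fun w => DDes w = I ∧ ¬ lastD w) a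

lemma cG_succ (I : Set ℕ) (m a : ℕ) (ha : a ≤ m + 1) :
    cG I (m + 1) a = ∑ b ∈ range a, (cF I m b + cG I m b) := by
  classical
  rw [sum_add_distrib, cG, cn_succ _ _ _ ha]
  simp only [cF, cG, sum_cn]
  rw [← sum_add_distrib]
  refine sum_congr rfl fun w _ => ?_
  simp only [lastD_ext, mem_range, not_le]
  by_cases h : (w (Fin.last m) : ℕ) < a
  · have : DDes (ext ⟨a, by omega⟩ w) = DDes w := by
      ext i
      rw [DDes_ext]
      simp [not_le.2 h]
    by_cases h1 : DDes w = I <;> by_cases h2 : lastD w <;> simp [this, h, h1, h2]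
  · simp [h]

lemma cF_succ (I : Set ℕ) (m a : ℕ) (ha : a ≤ m + 1) (hI : m + 1 ∉ I) :
    cF I (m + 1) a = ∑ b ∈ Ico a (m + 1), cG I m b := by
  classical
  rw [cF, cn_succ _ _ _ ha]
  simp only [cG, sum_cn]
  refine sum_congr rfl fun w _ => ?_
  simp only [lastD_ext, mem_Ico, (w (Fin.last m)).2, and_true]
  by_cases h : a ≤ (w (Fin.last m) : ℕ)
  · by_cases h2 : lastD w
    · have : DDes (ext ⟨a, by omega⟩ w) ≠ I := fun e =>
        hI (e ▸ (DDes_ext _ w _).2 (Or.inr ⟨rfl, h2, h⟩))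
      simp [this, h2]
    · have : DDes (ext ⟨a, by omega⟩ w) = DDes w := by
        ext i
        rw [DDes_ext]
        simp [h2]
      simp [this, h, h2]
  · simp [h]

lemma cF_new (m a : ℕ) (ha : a ≤ m + 1) :
    cF {m + 1} (m + 1) a = ∑ b ∈ Ico a (m + 1), cF ∅ m b := by
  classical
  rw [cF, cn_succ _ _ _ ha]
  simp only [cF, sum_cn]
  refine sum_congr rfl fun w _ => ?_
  simp only [lastD_ext, mem_Ico, (w (Fin.last m)).2, and_true]
  by_cases h : a ≤ (w (Fin.last m) : ℕ)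
  · have : DDes (ext ⟨a, by omega⟩ w) = {m + 1} ↔ DDes w = ∅ ∧ lastD w := by
      rw [Set.ext_iff, Set.eq_empty_iff_forall_notMem]
      simp only [DDes_ext, h, and_true, Set.mem_singleton_iff]
      constructor
      · intro h1
        refine ⟨fun i hi => ?_, ?_⟩
        · have := (h1 i).1 (Or.inl hi)
          have := le_of_mem_DDes w hi
          omega
        · rcases (h1 (m + 1)).2 rfl with h2 | h2
          · have := le_of_mem_DDes w h2
            omega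
          · exact h2.2
      · rintro ⟨h1, h2⟩ i
        simp [h1 i, h2]
    simp [this, h]
  · simp [h]

lemma cn_zero_of (m : ℕ) (P : Perm (Fin (m + 1)) → Prop) (h : ∀ w, ¬ P w) (a : ℕ) :
    cn m P a = 0 := by
  unfold cn
  exact sum_eq_zero fun w _ => if_neg fun h' => h w h'.1

lemma cG_new (m a : ℕ) (ha : a ≤ m + 1) : cG {m + 1} (m + 1) a = 0 := by
  have h : ∀ w : Perm (Fin (m + 1)), DDes w ≠ {m + 1} := fun w e => by
    have := le_of_mem_DDes w (i := m + 1) (e ▸ rfl)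
    omega
  rw [cG_succ _ _ _ ha]
  exact sum_eq_zero fun b _ => by
    rw [cF, cG, cn_zero_of _ _ fun w h' => h w h'.1, cn_zero_of _ _ fun w h' => h w h'.1]
    rfl

lemma cF_zero (a : ℕ) : cF ∅ 0 a = 0 :=
  cn_zero_of _ _ (fun w h => by obtain ⟨-, j, hj, -⟩ := h; omega) a

lemma cG_zero : cG ∅ 0 0 = 1 := by
  have h1 : ∀ w : Perm (Fin (0 + 1)), DDes w = ∅ := fun w =>
    Set.eq_empty_iff_forall_notMem.2 fun i hi => by
      have := le_of_mem_DDes w hi
      obtain ⟨h, -⟩ := hi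
      omega
  have h2 : ∀ w : Perm (Fin (0 + 1)), ¬ lastD w := fun w h => by
    obtain ⟨j, hj, -⟩ := h
    omega
  simp [cG, cn, h1, h2]

lemma dd_eq (I : Set ℕ) (m : ℕ) :
    dd I (m + 1) = ∑ b ∈ range (m + 1), (cF I m b + cG I m b) := by
  classical
  rw [sum_add_distrib]
  simp only [cF, cG, sum_cn]
  rw [← sum_add_distrib, dd, ← Set.coe_toFinset {w : Perm (Fin (m + 1)) | DDes w = I},
    Set.ncard_coe_finset, Set.toFinset_ofPred, card_filter]
  refine sum_congr rfl fun w _ => ?_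
  by_cases h1 : DDes w = I <;> by_cases h2 : lastD w <;> simp [h1, h2,
    Nat.le_of_lt_succ (w (Fin.last m)).2]

lemma tot_pos (m : ℕ) : 0 < ∑ b ∈ range (m + 1), cG ∅ m b := by
  induction m with
  | zero => simp [cG_zero]
  | succ m ih =>
    rw [sum_range_succ, cG_succ _ _ _ le_rfl, sum_add_distrib]
    omega

lemma dd_pos (k j : ℕ) : 0 < dd {k + 2} (k + 2 + j + 1) := by
  induction j with
  | zero =>
    rw [dd_eq, Nat.add_zero, sum_range_succ', cF_new _ _ (by omega), ← range_eq_Ico,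
      sum_range_succ' (cF ∅ (k + 1)), cF_succ ∅ k 0 (by omega) (by simp), ← range_eq_Ico]
    have := tot_pos k
    omega
  | succ j ih =>
    rw [show k + 2 + (j + 1) = k + 2 + j + 1 from rfl]
    rw [dd_eq] at ih ⊢
    rw [sum_range_succ, cG_succ _ _ _ le_rfl]
    omega

lemma dd_one (n : ℕ) : dd {1} n = 0 := by
  rw [dd, Set.ncard_eq_zero]
  refine Set.eq_empty_iff_forall_notMem.2 fun w h => ?_
  have h' : DDes w = {1} := h
  obtain ⟨h2, -⟩ : 1 ∈ DDes w := h' ▸ rfl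
  omega

end Pool.Agent.P.MP_f8a98e_co
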