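import Mathlib

namespace Pool.Agent.P.MP_f8a98e_co

/-- The double descent set of `w`, written in one-line notation `w_1, ..., w_n`
(so `w_j` is `w` at the index `j - 1` of `Fin n`). -/
def DDes {n : ℕ} (w : Equiv.Perm (Fin n)) : Set ℕ :=
  {i | ∃ (h2 : 2 ≤ i) (hn : i + 1 ≤ n),
    w ⟨i - 2, by omega⟩ > w ⟨i - 1, by omega⟩ ∧ w ⟨i - 1, by omega⟩ > w ⟨i, by omega⟩}

/-- `dd I n`: the number of permutations of `[n]` whose double descent set is `I`. -/
noncomputable def dd (I : Set ℕ) (n : ℕ) : ℕ :=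
  Set.ncard {w : Equiv.Perm (Fin n) | DDes w = I}

end Pool.Agent.P.MP_f8a98e_co
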