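import Pool.Agent.P.MP_f8a98e_co.Asym

/-! Estimates for the normalised counts. -/

namespace Pool.Agent.P.MP_f8a98e_co

open Finset

noncomputable def DD (m k : ℕ) : ℝ := ∫ t in (0 : ℝ)..1, phi m t * phi k (1 - t)

lemma DD_eq (m j : ℕ) : DD m (j + 1) =
    dd {m + 1} (m + j + 2) * (xx ^ (m + j + 1) / (m + j + 2).factorial) := by
  have h := dd_int m j
  rw [show m + 1 + j + 1 = m + j + 2 by ring] at h
  rw [← mul_div_assoc, mul_div_right_comm, h, ← intervalIntegral.integral_mul_const, DD]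
  refine intervalIntegral.integral_congr fun t _ => ?_
  simp only [phi]
  ring

lemma phi_cont (m : ℕ) : Continuous (phi m) := (fF_cont ∅ m).mul continuous_const
lemma al_cont : Continuous al := by unfold al; fun_prop
lemma be_cont : Continuous be := by unfold be; fun_prop

lemma sin_bd {t : ℝ} (h0 : 0 ≤ t) (h1 : t ≤ 1) :
    2 / 3 * (1 - t) ≤ Real.sin (th * (1 - t)) ∧
      2 / 3 * (1 - t) ≤ Real.sin (2 * (th * (1 - t))) := by
  have hp := Real.pi_pos
  have a0 : 0 ≤ th * (1 - t) := mul_nonneg (by linarith [th_bd.1]) (by linarith)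
  have a1 : th * (1 - t) ≤ Real.pi / 3 := by
    unfold th
    nlinarith
  have h2 := Real.mul_le_sin a0 (by linarith)
  have h3 : 2 / Real.pi * (th * (1 - t)) = 2 / 3 * (1 - t) := by
    unfold th
    field_simp
  have h4 : Real.cos (Real.pi / 3) ≤ Real.cos (th * (1 - t)) :=
    Real.cos_le_cos_of_nonneg_of_le_pi a0 (by linarith) a1
  rw [Real.cos_pi_div_three] at h4
  rw [h3] at h2
  refine ⟨h2, ?_⟩
  rw [Real.sin_two_mul]
  nlinarith

lemma al_bd {t : ℝ} (h0 : 0 ≤ t) (h1 : t ≤ 1) : 2 / 3 * (1 - t) ≤ al t ∧ al t ≤ 2 := by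
  have hx := xx_bd
  have h2 := (sin_bd h0 h1).1
  have h3 : 1 ≤ Real.exp (xx * t / 2) := Real.one_le_exp (by nlinarith [hx.1])
  have h4 : Real.exp (xx * t / 2) ≤ 2 := by
    exact (Real.le_log_iff_exp_le (by norm_num)).1 (by nlinarith [hx.1, hx.2, Real.log_two_gt_d9])
  have h5 := Real.sin_le_one (th * (1 - t))
  unfold al
  constructor <;> nlinarith

lemma be_bd {t : ℝ} (h0 : 0 ≤ t) (h1 : t ≤ 1) : 0 ≤ be t ∧ be t ≤ 1 := by
  have hx := xx_bd
  have h2 := (sin_bd h0 h1).2
  have h3 : Real.exp (-(xx * t)) ≤ 1 := Real.exp_le_one_iff.2 (by nlinarith [hx.1])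
  have h4 := Real.exp_pos (-(xx * t))
  have h5 := Real.sin_le_one (2 * (th * (1 - t)))
  unfold be
  constructor <;> nlinarith

lemma be_al {t : ℝ} (h0 : 0 ≤ t) (h1 : t ≤ 1) :
    4 / 9 * (t * (1 - t) * (1.6 - 1.815 * t)) ≤ be t * al (1 - t) := by
  have hx := xx_bd
  have h2 := (sin_bd h0 h1).2
  have h3 := (sin_bd (t := 1 - t) (by linarith) (by linarith)).1
  have h4 : 2 / 3 * (1 - t) * (2 / 3 * (1 - (1 - t))) ≤
      Real.sin (2 * (th * (1 - t))) * Real.sin (th * (1 - (1 - t))) :=
    mul_le_mul h2 h3 (by linarith) (by linarith)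
  have h5 : 1.6 - 1.815 * t ≤ Real.exp (-(xx * t)) * Real.exp (xx * (1 - t) / 2) := by
    rw [← Real.exp_add]
    refine le_trans ?_ (Real.add_one_le_exp _)
    nlinarith [hx.1, hx.2]
  have h6 : 0 ≤ t * (1 - t) := mul_nonneg h0 (by linarith)
  have h7 := mul_le_mul_of_nonneg_left h4
    (mul_pos (Real.exp_pos (-(xx * t))) (Real.exp_pos (xx * (1 - t) / 2))).le
  have h8 := mul_le_mul_of_nonneg_left h5 h6
  unfold be al
  nlinarith

lemma int_le {u : ℝ → ℝ} {c : ℝ} (h : ∀ t, 0 ≤ t → t ≤ 1 → |u t| ≤ c) :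
    |∫ t in (0 : ℝ)..1, u t| ≤ c := by
  have := intervalIntegral.norm_integral_le_of_norm_le_const (a := 0) (b := 1) (C := c) (f := u)
    fun t ht => by
      rw [Set.uIoc_of_le zero_le_one] at ht
      exact h t ht.1.le ht.2
  simpa using this

lemma int_poly (p q r : ℝ) :
    ∫ t in (0 : ℝ)..1, r * (t * (1 - t) * (p - q * t)) = r * (p / 6 - q / 12) := by
  have key : ∀ t : ℝ, HasDerivAt (fun t : ℝ => r * (p * t ^ 2 / 2 - (p + q) * t ^ 3 / 3 +
      q * t ^ 4 / 4)) (r * (t * (1 - t) * (p - q * t))) t := by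
    intro t
    refine ((((((hasDerivAt_pow 2 t).const_mul p).div_const 2).sub
      (((hasDerivAt_pow 3 t).const_mul (p + q)).div_const 3)).add
      (((hasDerivAt_pow 4 t).const_mul q).div_const 4)).const_mul r).congr_deriv ?_
    norm_num
    left
    ring
  rw [intervalIntegral.integral_eq_sub_of_hasDerivAt (fun t _ => key t)
    (Continuous.intervalIntegrable (by fun_prop) _ _)]
  ring

lemma abs_half_pow (m : ℕ) : |(-1 / 2 : ℝ) ^ m| = (1 / 2) ^ m := by
  rw [abs_pow]
  norm_num [abs_div]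

lemma prod_est {u v U V ε δ c d : ℝ} (h1 : |u - U| ≤ ε) (h2 : |v - V| ≤ δ) (h3 : |U| ≤ c)
    (h4 : |V| ≤ d) : |u * v - U * V| ≤ d * ε + c * δ + ε * δ := by
  have : u * v - U * V = V * (u - U) + U * (v - V) + (u - U) * (v - V) := by ring
  rw [this]
  refine (abs_add_three _ _ _).trans ?_
  have hc := (abs_nonneg _).trans h3
  have hd := (abs_nonneg _).trans h4
  have he := (abs_nonneg _).trans h1
  simp only [abs_mul]
  gcongr

theorem DD_est : (∃ A B C : ℝ, 0.04 ≤ A ∧ 0.012 ≤ B ∧ B ≤ 1.4 ∧ |C| ≤ 0.49 ∧ ∀ m k : ℕ,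
    |DD m k - (A - B * ((-1 / 2) ^ m + (-1 / 2) ^ k) + C * ((-1 / 2) ^ m * (-1 / 2) ^ k))| ≤
      2.7 * (120 * (1 / 3) ^ m) + 2.7 * (120 * (1 / 3) ^ k) +
        120 * (1 / 3) ^ m * (120 * (1 / 3) ^ k)) ∧
    ∃ J : ℕ → ℝ, ∀ m, 1 ≤ m → |J m| ≤ 86 ∧ ∀ k, 15 ≤ k → |DD m k - J m| ≤ 43 * (1 / 2) ^ k := by
  obtain ⟨a, b, a0, a1, b0, b1, h⟩ := asym
  have c1 := al_cont
  have c2 := be_cont
  have ba : ∀ t, 0 ≤ t → t ≤ 1 → |a * al t| ≤ 2 := fun t h0 h1 => by
    have := al_bd h0 h1
    rw [abs_le]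
    constructor <;> nlinarith [this.1, this.2]
  have bb : ∀ t, 0 ≤ t → t ≤ 1 → |b * be t| ≤ 0.7 := fun t h0 h1 => by
    have := be_bd h0 h1
    rw [abs_le]
    constructor <;> nlinarith [this.1, this.2]
  have bq : ∀ (m : ℕ) t, 0 ≤ t → t ≤ 1 → |(-1 / 2) ^ m * (b * be t)| ≤ (1 / 2) ^ m * 0.7 :=
    fun m t h0 h1 => by
      rw [abs_mul, abs_half_pow]
      exact mul_le_mul_of_nonneg_left (bb t h0 h1) (by positivity)
  have bM : ∀ (m : ℕ) t, 0 ≤ t → t ≤ 1 → |a * al t - (-1 / 2) ^ m * (b * be t)| ≤ 2.7 :=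
    fun m t h0 h1 => by
      have h2 : (1 / 2 : ℝ) ^ m ≤ 1 := pow_le_one₀ (by norm_num) (by norm_num)
      refine (abs_sub _ _).trans ?_
      linarith [ba t h0 h1, bq m t h0 h1]
  constructor
  · refine ⟨∫ t in (0 : ℝ)..1, a * al t * (a * al (1 - t)),
      ∫ t in (0 : ℝ)..1, b * be t * (a * al (1 - t)),
      ∫ t in (0 : ℝ)..1, b * be t * (b * be (1 - t)), ?_, ?_, ?_, ?_, fun m k => ?_⟩
    · have h1 := intervalIntegral.integral_mono_on (μ := MeasureTheory.volume) zero_le_one
        (f := fun t => 0.24 * (t * (1 - t) * (1 - 0 * t)))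
        (g := fun t => a * al t * (a * al (1 - t)))
        (Continuous.intervalIntegrable (by fun_prop) _ _)
        (Continuous.intervalIntegrable (by fun_prop) _ _) fun t ht => by
          have h2 := (al_bd ht.1 ht.2).1
          have h3 := (al_bd (t := 1 - t) (by linarith [ht.2]) (by linarith [ht.1])).1
          have h4 := mul_le_mul h2 h3 (by linarith [ht.1]) (by linarith [ht.2])
          have h5 : 0 ≤ t * (1 - t) := mul_nonneg ht.1 (by linarith [ht.2])
          have h6 : 0.57 ≤ a * a := by nlinarith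
          have h7 := mul_le_mul h6 h4 (by nlinarith) (by linarith)
          nlinarith
      rw [int_poly] at h1
      linarith
    · have h1 := intervalIntegral.integral_mono_on (μ := MeasureTheory.volume) zero_le_one
        (f := fun t => 4 / 9 * (t * (1 - t) * (1.6 - 1.815 * t)))
        (g := fun t => be t * al (1 - t))
        (Continuous.intervalIntegrable (by fun_prop) _ _)
        (Continuous.intervalIntegrable (by fun_prop) _ _) fun t ht => be_al ht.1 ht.2
      rw [int_poly] at h1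
      have h2 : ∫ t in (0 : ℝ)..1, b * be t * (a * al (1 - t)) =
          a * b * ∫ t in (0 : ℝ)..1, be t * al (1 - t) := by
        rw [← intervalIntegral.integral_const_mul]
        exact intervalIntegral.integral_congr fun t _ => by ring
      have h3 : 0.2342 ≤ a * b := by nlinarith
      rw [h2]
      refine le_trans ?_ (mul_le_mul h3 h1 (by norm_num) (by linarith))
      norm_num
    · refine (le_abs_self _).trans (int_le fun t h0 h1 => ?_)
      rw [abs_mul]
      exact (mul_le_mul (bb t h0 h1) (ba _ (by linarith) (by linarith)) (abs_nonneg _)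
        (by norm_num)).trans (by norm_num)
    · refine int_le fun t h0 h1 => ?_
      rw [abs_mul]
      exact (mul_le_mul (bb t h0 h1) (bb _ (by linarith) (by linarith)) (abs_nonneg _)
        (by norm_num)).trans (by norm_num)
    · have sy : ∫ t in (0 : ℝ)..1, b * be t * (a * al (1 - t)) =
          ∫ t in (0 : ℝ)..1, a * al t * (b * be (1 - t)) := by
        have := intervalIntegral.integral_comp_sub_left (a := 0) (b := 1)
          (fun t => a * al t * (b * be (1 - t))) 1
        simp only [sub_sub_cancel, sub_self, sub_zero] at this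
        rw [← this]
        exact intervalIntegral.integral_congr fun t _ => mul_comm _ _
      have c3 := phi_cont m
      have c4 := phi_cont k
      rw [mul_add]
      nth_rewrite 2 [sy]
      rw [DD]
      simp only [← intervalIntegral.integral_mul_const]
      rw [← intervalIntegral.integral_add, ← intervalIntegral.integral_sub,
        ← intervalIntegral.integral_add, ← intervalIntegral.integral_sub]
      any_goals exact Continuous.intervalIntegrable (by fun_prop) _ _
      refine int_le fun t h0 h1 => ?_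
      have h2 : 0 ≤ 1 - t := by linarith
      have h3 : 1 - t ≤ 1 := by linarith
      refine le_trans (le_of_eq ?_) (prod_est (h m t h0 h1) (h k _ h2 h3) (bM m t h0 h1)
        (bM k _ h2 h3))
      congr 1
      ring
  · have bp : ∀ m, 1 ≤ m → ∀ t, 0 ≤ t → t ≤ 1 → |phi m t| ≤ 43 := fun m hm t h0 h1 => by
      have h2 : (1 / 3 : ℝ) ^ m ≤ (1 / 3) ^ 1 :=
        pow_le_pow_of_le_one (by norm_num) (by norm_num) hm
      have h3 := abs_le.1 (h m t h0 h1)
      have h4 := abs_le.1 (bM m t h0 h1)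
      rw [abs_le]
      constructor <;> linarith [h3.1, h3.2, h4.1, h4.2]
    refine ⟨fun m => ∫ t in (0 : ℝ)..1, phi m t * (a * al (1 - t)), fun m hm =>
      ⟨int_le fun t h0 h1 => ?_, fun k hk => ?_⟩⟩
    · rw [abs_mul]
      exact (mul_le_mul (bp m hm t h0 h1) (ba _ (by linarith) (by linarith)) (abs_nonneg _)
        (by norm_num)).trans (by norm_num)
    · have c3 := phi_cont m
      have c4 := phi_cont k
      rw [DD, ← intervalIntegral.integral_sub]
      any_goals exact Continuous.intervalIntegrable (by fun_prop) _ _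
      refine int_le fun t h0 h1 => ?_
      rw [← mul_sub, abs_mul]
      refine mul_le_mul (bp m hm t h0 h1) ?_ (abs_nonneg _) (by norm_num)
      have h2 : (2 / 3 : ℝ) ^ k ≤ (2 / 3) ^ 15 :=
        pow_le_pow_of_le_one (by norm_num) (by norm_num) hk
      have h3 : (1 / 3 : ℝ) ^ k = (2 / 3) ^ k * (1 / 2) ^ k := by
        rw [← mul_pow]
        norm_num
      have h4 := mul_le_mul_of_nonneg_right h2 (show (0 : ℝ) ≤ (1 / 2) ^ k by positivity)
      have h5 := abs_le.1 (h k (1 - t) (by linarith) (by linarith))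
      have h6 := abs_le.1 (bq k (1 - t) (by linarith) (by linarith))
      have h7 : (0 : ℝ) ≤ (1 / 2) ^ k := by positivity
      rw [abs_le]
      constructor <;> linarith [h5.1, h5.2, h6.1, h6.2]

end Pool.Agent.P.MP_f8a98e_co
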