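import Pool.Agent.P.MP_f8a98e_co.Defs

namespace Pool.Agent.P.MP_f8a98e_co

/-- Boolean test: the double descent set of `w` is `{k}`, for `n = 7`. -/
def test7 (k : ℕ) (w : Equiv.Perm (Fin 7)) : Bool :=
  let a := (w 0).val
  let b := (w 1).val
  let c := (w 2).val
  let d := (w 3).val
  let e := (w 4).val
  let f := (w 5).val
  let g := (w 6).val
  ((decide (b < a) && decide (c < b)) == (k == 2)) &&
  ((decide (c < b) && decide (d < c)) == (k == 3)) &&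
  ((decide (d < c) && decide (e < d)) == (k == 4)) &&
  ((decide (e < d) && decide (f < e)) == (k == 5)) &&
  ((decide (f < e) && decide (g < f)) == (k == 6))

theorem mem_DDes7 (w : Equiv.Perm (Fin 7)) (i : ℕ) :
    i ∈ DDes w ↔
      (i = 2 ∧ (w 1).val < (w 0).val ∧ (w 2).val < (w 1).val) ∨
      (i = 3 ∧ (w 2).val < (w 1).val ∧ (w 3).val < (w 2).val) ∨
      (i = 4 ∧ (w 3).val < (w 2).val ∧ (w 4).val < (w 3).val) ∨
      (i = 5 ∧ (w 4).val < (w 3).val ∧ (w 5).val < (w 4).val) ∨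
      (i = 6 ∧ (w 5).val < (w 4).val ∧ (w 6).val < (w 5).val) := by
  constructor
  · rintro ⟨h2, hn, h⟩
    have h6 : i ≤ 6 := by omega
    interval_cases i
    · exact Or.inl ⟨rfl, h⟩
    · exact Or.inr (Or.inl ⟨rfl, h⟩)
    · exact Or.inr (Or.inr (Or.inl ⟨rfl, h⟩))
    · exact Or.inr (Or.inr (Or.inr (Or.inl ⟨rfl, h⟩)))
    · exact Or.inr (Or.inr (Or.inr (Or.inr ⟨rfl, h⟩)))
  · rintro (⟨rfl, h⟩ | ⟨rfl, h⟩ | ⟨rfl, h⟩ | ⟨rfl, h⟩ | ⟨rfl, h⟩) <;>
      exact ⟨by norm_num, by norm_num, h⟩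

theorem aux_iff (P2 P3 P4 P5 P6 : Prop) (k : ℕ) (hk : 2 ≤ k) (hk' : k ≤ 6) :
    (∀ i : ℕ, ((i = 2 ∧ P2) ∨ (i = 3 ∧ P3) ∨ (i = 4 ∧ P4) ∨ (i = 5 ∧ P5) ∨ (i = 6 ∧ P6)) ↔ i = k) ↔
      (((((P2 ↔ k = 2) ∧ (P3 ↔ k = 3)) ∧ (P4 ↔ k = 4)) ∧ (P5 ↔ k = 5)) ∧ (P6 ↔ k = 6)) := by
  constructor
  · intro h
    have h2 := h 2
    have h3 := h 3
    have h4 := h 4
    have h5 := h 5
    have h6 := h 6
    clear h
    simp only [Nat.reduceEqDiff, true_and, false_and, or_false, false_or] at h2 h3 h4 h5 h6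
    exact ⟨⟨⟨⟨h2.trans eq_comm, h3.trans eq_comm⟩, h4.trans eq_comm⟩, h5.trans eq_comm⟩,
      h6.trans eq_comm⟩
  · rintro ⟨⟨⟨⟨h2, h3⟩, h4⟩, h5⟩, h6⟩ i
    rw [h2, h3, h4, h5, h6]
    omega

theorem DDes_eq_iff (k : ℕ) (hk : 2 ≤ k) (hk' : k ≤ 6) (w : Equiv.Perm (Fin 7)) :
    DDes w = {k} ↔ test7 k w = true := by
  rw [Set.ext_iff]
  simp only [mem_DDes7, Set.mem_singleton_iff, test7, Bool.and_eq_true, beq_iff_eq]
  have key : ∀ (p q : Prop) [Decidable p] [Decidable q] (m : ℕ),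
      ((decide p && decide q) = (k == m)) ↔ ((p ∧ q) ↔ k = m) := by
    intro p q _ _ m
    by_cases hp : p <;> by_cases hq : q <;> by_cases hm : k = m <;> simp [hp, hq, hm]
  simp only [key]
  exact aux_iff _ _ _ _ _ k hk hk'

theorem dd_eq_card (k : ℕ) (hk : 2 ≤ k) (hk' : k ≤ 6) :
    dd {k} 7 = (Finset.univ.filter (fun w : Equiv.Perm (Fin 7) => test7 k w = true)).card := by
  unfold dd
  rw [← Set.ncard_coe_finset]
  congr 1
  ext w
  simp [DDes_eq_iff k hk hk']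

theorem card2 : (Finset.univ.filter (fun w : Equiv.Perm (Fin 7) => test7 2 w = true)).card = 426 := by
  decide +kernel

theorem card3 : (Finset.univ.filter (fun w : Equiv.Perm (Fin 7) => test7 3 w = true)).card = 363 := by
  decide +kernel

theorem card4 : (Finset.univ.filter (fun w : Equiv.Perm (Fin 7) => test7 4 w = true)).card = 462 := by
  decide +kernel

theorem card5 : (Finset.univ.filter (fun w : Equiv.Perm (Fin 7) => test7 5 w = true)).card = 363 := by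
  decide +kernel

theorem dd2 : dd {2} 7 = 426 := by rw [dd_eq_card 2 (by norm_num) (by norm_num), card2]
theorem dd3 : dd {3} 7 = 363 := by rw [dd_eq_card 3 (by norm_num) (by norm_num), card3]
theorem dd4 : dd {4} 7 = 462 := by rw [dd_eq_card 4 (by norm_num) (by norm_num), card4]
theorem dd5 : dd {5} 7 = 363 := by rw [dd_eq_card 5 (by norm_num) (by norm_num), card5]

end Pool.Agent.P.MP_f8a98e_co
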