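import Pool.Agent.P.MP_f8a98e_co.Comp

/-! Correctness of the finite computation. -/

namespace Pool.Agent.P.MP_f8a98e_co

open Finset

/-- `c s, c (s + 1), ...` with `n` entries -/
def Up (c : ℕ → ℕ) : ℕ → ℕ → List ℕ
  | _, 0 => []
  | s, n + 1 => c s :: Up c (s + 1) n

/-- `f n, f (n - 1), ...` with `e` entries -/
def Dn (f : ℕ → ℕ) : ℕ → ℕ → List ℕ
  | _, 0 => []
  | n, e + 1 => f n :: Dn f (n - 1) e

lemma pre2_spec (f g H : ℕ → ℕ) (n s : ℕ) (k : List ℕ → ℕ → Bool)
    (h : ∀ a, a < s + n → H (a + 1) = H a + f a + g a) :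
    pre2 (Up f s n) (Up g s n) (H s) k = k (Up H s (n + 1)) (H (s + n)) := by
  induction n generalizing s k with
  | zero => rfl
  | succ n ih =>
    have e : pre2 (Up f s (n + 1)) (Up g s (n + 1)) (H s) k =
      frc (H s + f s + g s) fun s' => pre2 (Up f (s + 1) n) (Up g (s + 1) n) s'
        fun r t => k (H s :: r) t := rfl
    rw [e, frc_eq, ← h s (by omega), ih (s + 1) _ fun a ha => h a (by omega),
      show s + 1 + n = s + (n + 1) by omega]
    rfl

lemma suf_spec (g S : ℕ → ℕ) (n s : ℕ) (k : List ℕ → ℕ → Bool) (h0 : S (s + n) = 0)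
    (h : ∀ a, a < s + n → S a = g a + S (a + 1)) :
    suf (Up g s n) k = k (Up S s (n + 1)) (S s) := by
  induction n generalizing s k with
  | zero =>
    have h1 : S s = 0 := h0
    show k [0] 0 = k [S s] (S s)
    rw [h1]
  | succ n ih =>
    have e : suf (Up g s (n + 1)) k = suf (Up g (s + 1) n)
      fun r h => frc (g s + h) fun h' => k (h' :: r) h' := rfl
    rw [e, ih (s + 1) _ (by rw [← h0]; congr 1; omega) fun a ha => h a (by omega), frc_eq,
      ← h s (by omega)]
    rfl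

lemma zer_spec (f g : ℕ → ℕ) (n s : ℕ) (h : ∀ a, a < s + n → g a = 0) :
    zer (Up f s n) = Up g s n := by
  induction n generalizing s with
  | zero => rfl
  | succ n ih =>
    have e : zer (Up f s (n + 1)) = 0 :: zer (Up f (s + 1) n) := rfl
    rw [e, ih (s + 1) fun a ha => h a (by omega), ← h s (by omega)]
    rfl

lemma pre2_c (I : Set ℕ) (m : ℕ) (k : List ℕ → ℕ → Bool) :
    pre2 (Up (cF I m) 0 (m + 1)) (Up (cG I m) 0 (m + 1)) 0 k =
      k (Up (cG I (m + 1)) 0 (m + 2)) (dd I (m + 1)) := by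
  have h0 : cG I (m + 1) 0 = 0 := by rw [cG_succ _ _ _ (by omega), sum_range_zero]
  have := pre2_spec (cF I m) (cG I m) (cG I (m + 1)) (m + 1) 0 k fun a ha => by
    rw [cG_succ _ _ _ (by omega), cG_succ _ _ _ (by omega), sum_range_succ, add_assoc]
  rw [h0, zero_add, cG_succ _ _ _ le_rfl, ← dd_eq] at this
  exact this

lemma suf_c (I : Set ℕ) (m : ℕ) (hI : m + 1 ∉ I) (k : List ℕ → Bool) :
    suf (Up (cG I m) 0 (m + 1)) (fun r _ => k r) = k (Up (cF I (m + 1)) 0 (m + 2)) :=
  suf_spec (cG I m) (cF I (m + 1)) (m + 1) 0 _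
    (by rw [zero_add, cF_succ _ _ _ le_rfl hI, Ico_self, sum_empty]) fun a ha => by
      rw [cF_succ _ _ _ (by omega) hI, cF_succ _ _ _ (by omega) hI,
        sum_eq_sum_Ico_succ_bot (by omega)]

lemma suf_new (m : ℕ) (k : List ℕ → Bool) :
    suf (Up (cF ∅ m) 0 (m + 1)) (fun r _ => k r) = k (Up (cF {m + 1} (m + 1)) 0 (m + 2)) :=
  suf_spec (cF ∅ m) (cF {m + 1} (m + 1)) (m + 1) 0 _
    (by rw [zero_add, cF_new _ _ le_rfl, Ico_self, sum_empty]) fun a ha => by
      rw [cF_new _ _ (by omega), cF_new _ _ (by omega), sum_eq_sum_Ico_succ_bot (by omega)]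

lemma run_spec (j c m e : ℕ) (h : j ≤ m) (k : List ℕ → Bool) :
    run c (Up (cF {j} m) 0 (m + 1)) (Up (cG {j} m) 0 (m + 1)) (Dn (dd {j}) m e) k =
      k (Dn (dd {j}) (m + c) (e + c)) := by
  induction c generalizing m e with
  | zero => rfl
  | succ c ih =>
    have e1 : ∀ F G acc, run (c + 1) F G acc k =
      pre2 F G 0 fun G' t => suf G fun F' _ => run c F' G' (t :: acc) k := fun _ _ _ => rfl
    have e2 : dd {j} (m + 1) :: Dn (dd {j}) m e = Dn (dd {j}) (m + 1) (e + 1) := rfl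
    rw [e1, pre2_c, suf_c _ _ (by rw [Set.mem_singleton_iff]; omega), e2, ih _ _ (by omega),
      show m + 1 + c = m + (c + 1) by omega, show e + 1 + c = e + (c + 1) by omega]

lemma walk_spec (ev : Bool) (W V c n e0 e1 e2 e3 : ℕ) (f0 f1 f2 f3 : ℕ → ℕ)
    (h : walk ev W V c (Dn f0 n e0) (Dn f1 n e1) (Dn f2 n e2) (Dn f3 n e3) = true) :
    ∀ j < c, cmp ev (f0 (n - j)) (f1 (n - j)) (f2 (n - j)) (f3 (n - j)) W V = true := by
  induction c generalizing n e0 e1 e2 e3 with
  | zero => intro j hj; omega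
  | succ c ih =>
    cases e0 with
    | zero => exact absurd h Bool.false_ne_true
    | succ e0 =>
    cases e1 with
    | zero => exact absurd h Bool.false_ne_true
    | succ e1 =>
    cases e2 with
    | zero => exact absurd h Bool.false_ne_true
    | succ e2 =>
    cases e3 with
    | zero => exact absurd h Bool.false_ne_true
    | succ e3 =>
    have h' : cond (cmp ev (f0 n) (f1 n) (f2 n) (f3 n) W V)
      (walk ev W V c (Dn f0 (n - 1) e0) (Dn f1 (n - 1) e1) (Dn f2 (n - 1) e2)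
        (Dn f3 (n - 1) e3)) false = true := h
    cases hc : cmp ev (f0 n) (f1 n) (f2 n) (f3 n) W V with
    | false => rw [hc] at h'; exact absurd h' Bool.false_ne_true
    | true =>
      rw [hc] at h'
      intro j hj
      cases j with
      | zero => exact hc
      | succ j =>
        rw [show n - (j + 1) = n - 1 - j by omega]
        exact ih _ _ _ _ _ h' j (by omega)

/-- the row of values of `dd {k}` -/
noncomputable def Row (k : ℕ) : List ℕ := Dn (dd {k}) 90 (90 - k)

lemma loop_spec (W V c m : ℕ) (r0 r1 r2 : List ℕ) (hm : m + c ≤ 89)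
    (h0 : 3 ≤ m → r0 = Row (m - 2)) (h1 : 2 ≤ m → r1 = Row (m - 1)) (h2 : 1 ≤ m → r2 = Row m)
    (h : loop W V c m (Up (cF ∅ m) 0 (m + 1)) (Up (cG ∅ m) 0 (m + 1)) r0 r1 r2 = true) :
    ∀ i, 1 ≤ i → m ≤ i + 2 → i + 2 < m + c →
      test i W V (Row i) (Row (i + 1)) (Row (i + 2)) (Row (i + 3)) = true := by
  induction c generalizing m r0 r1 r2 with
  | zero => intro i _ _ _; omega
  | succ c ih =>
    have e1 : ∀ F G, loop W V (c + 1) m F G r0 r1 r2 =
      suf F fun F1 _ => run (89 - m) F1 (zer F1) [] fun r3 =>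
      cond (test (m - 2) W V r0 r1 r2 r3)
        (pre2 F G 0 fun G' _ => suf G fun F' _ => frc (m + 1) fun m' =>
          loop W V c m' F' G' r1 r2 r3) false := fun _ _ => rfl
    have e2 : ([] : List ℕ) = Dn (dd {m + 1}) (m + 1) 0 := rfl
    have e3 : Dn (dd {m + 1}) (m + 1 + (89 - m)) (0 + (89 - m)) = Row (m + 1) := by
      rw [Row]
      congr 1 <;> omega
    rw [e1, suf_new, zer_spec _ (cG {m + 1} (m + 1)) _ _ fun a ha => cG_new _ _ (by omega), e2,
      run_spec _ _ _ _ le_rfl, e3, pre2_c, suf_c _ _ (Set.notMem_empty _), frc_eq] at h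
    cases hc : test (m - 2) W V r0 r1 r2 (Row (m + 1)) with
    | false => rw [hc] at h; exact absurd h Bool.false_ne_true
    | true =>
      rw [hc] at h
      intro i i1 i2 i3
      rcases eq_or_lt_of_le i2 with rfl | i4
      · rw [h0 (by omega), h1 (by omega), h2 (by omega)] at hc
        exact hc
      · exact ih (m + 1) r1 r2 _ (by omega) (fun _ => h1 (by omega)) (fun _ => h2 (by omega))
          (fun _ => rfl) h i i1 (by omega) (by omega)

lemma cmp_iff (i a b c d W V : ℕ) (h : cmp (Nat.beq (i % 2) 0) a b c d W V = true) :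
    (V : ℝ) < (-1) ^ i * ((a : ℝ) * d - b * c) * W := by
  rcases Nat.even_or_odd i with hi | hi
  · rw [Nat.even_iff.1 hi] at h
    have h' : b * c * W + V < a * d * W := Nat.blt_eq.mp h
    have h2 : ((b * c * W + V : ℕ) : ℝ) < (a * d * W : ℕ) := by exact_mod_cast h'
    rw [hi.neg_one_pow]
    push_cast at h2
    linarith
  · rw [Nat.odd_iff.1 hi] at h
    have h' : a * d * W + V < b * c * W := Nat.blt_eq.mp h
    have h2 : ((a * d * W + V : ℕ) : ℝ) < (b * c * W : ℕ) := by exact_mod_cast h'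
    rw [hi.neg_one_pow]
    push_cast at h2
    linarith

/-- signed difference of the cross products -/
noncomputable def dl (i n : ℕ) : ℝ :=
  (-1) ^ i * ((dd {i} n : ℝ) * dd {i + 3} n - dd {i + 1} n * dd {i + 2} n)

theorem finite_part (i : ℕ) (h2 : 2 ≤ i) (h33 : i ≤ 33) :
    (VV : ℝ) < dl i 90 * WW ∧
      ∀ n, 2 * i + 3 ≤ n → n ≤ 90 → ¬ (n = 7 ∧ i = 2) → 0 < dl i n := by
  have h := loop_ok
  rw [frc_eq, frc_eq] at h
  have f0 : [0] = Up (cF ∅ 0) 0 (0 + 1) := congrArg (fun x => [x]) (cF_zero 0).symm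
  have g0 : [1] = Up (cG ∅ 0) 0 (0 + 1) := congrArg (fun x => [x]) cG_zero.symm
  rw [f0, g0] at h
  have h1 := loop_spec WW VV 36 0 [] [] [] (by omega) (by omega) (by omega) (by omega) h i
    (by omega) (by omega) (by omega)
  generalize WW = W at *
  generalize VV = V at *
  have e : Nat.blt i 2 = false := by
    rw [← Bool.not_eq_true, Nat.blt_eq]
    omega
  rw [test, e, cond_false] at h1
  cases hc : walk (Nat.beq (i % 2) 0) W V 1 (Row i) (Row (i + 1)) (Row (i + 2)) (Row (i + 3)) with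
  | false => rw [hc] at h1; exact absurd h1 Bool.false_ne_true
  | true =>
    rw [hc, cond_true] at h1
    refine ⟨cmp_iff _ _ _ _ _ _ _ (walk_spec _ _ _ _ _ _ _ _ _ _ _ _ _ hc 0 one_pos),
      fun n n1 n2 n3 => ?_⟩
    have := cmp_iff _ _ _ _ _ _ _ (walk_spec _ _ _ _ _ _ _ _ _ _ _ _ _ h1 (90 - n) (by
      unfold cnt
      split_ifs <;> omega))
    rw [show 90 - (90 - n) = n by omega] at this
    simpa [dl] using this

end Pool.Agent.P.MP_f8a98e_co
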