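import Pool.Agent.P.MP_f8a98e_co.Ineq
import Pool.Agent.P.MP_f8a98e_co.Spec
import Pool.Agent.P.MP_f8a98e_co.Seven

/-! The inequalities hold for all admissible pairs except `n = 7`, `i = 2`. -/

namespace Pool.Agent.P.MP_f8a98e_co

noncomputable def DL (m k : ℕ) : ℝ :=
  (-1) ^ (m + 1) * (DD m (k + 3) * DD (m + 3) k - DD (m + 1) (k + 2) * DD (m + 2) (k + 1))

lemma DL_eq (m j : ℕ) : DL m (j + 1) =
    dl (m + 1) (m + j + 5) * (xx ^ (m + j + 4) / (m + j + 5).factorial) ^ 2 := by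
  have h0 := DD_eq m (j + 3)
  have h1 := DD_eq (m + 1) (j + 2)
  have h2 := DD_eq (m + 2) (j + 1)
  have h3 := DD_eq (m + 3) j
  rw [show m + (j + 3) + 2 = m + j + 5 by ring, show m + (j + 3) + 1 = m + j + 4 by ring] at h0
  rw [show m + 1 + (j + 2) + 2 = m + j + 5 by ring,
    show m + 1 + (j + 2) + 1 = m + j + 4 by ring] at h1
  rw [show m + 2 + (j + 1) + 2 = m + j + 5 by ring,
    show m + 2 + (j + 1) + 1 = m + j + 4 by ring] at h2
  rw [show m + 3 + j + 2 = m + j + 5 by ring, show m + 3 + j + 1 = m + j + 4 by ring] at h3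
  rw [DL, dl, h0, h1, h2, h3]
  ring

lemma alg {A B C x y X σ D0 D1 D2 D3 : ℝ} (hσ : σ = 1 ∨ σ = -1) (hx : x = -σ * X)
    (X0 : 0 < X) (X1 : X ≤ 0.000001) (hy : |y| ≤ X / 2) (hA : 0.04 ≤ A) (B0 : 0.012 ≤ B)
    (B1 : B ≤ 1.4) (hC : |C| ≤ 0.49)
    (e0 : |D0 - (A - B * (x + y * (-1 / 2) ^ 3) + C * (x * (y * (-1 / 2) ^ 3)))| ≤ 0.0011 * X)
    (e1 : |D1 - (A - B * (x * (-1 / 2) ^ 1 + y * (-1 / 2) ^ 2) +
      C * (x * (-1 / 2) ^ 1 * (y * (-1 / 2) ^ 2)))| ≤ 0.0011 * X)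
    (e2 : |D2 - (A - B * (x * (-1 / 2) ^ 2 + y * (-1 / 2) ^ 1) +
      C * (x * (-1 / 2) ^ 2 * (y * (-1 / 2) ^ 1)))| ≤ 0.0011 * X)
    (e3 : |D3 - (A - B * (x * (-1 / 2) ^ 3 + y) + C * (x * (-1 / 2) ^ 3 * y))| ≤ 0.0011 * X) :
    0 < σ * (D0 * D3 - D1 * D2) := by
  have hxa : |x| = X := by
    rcases hσ with rfl | rfl <;> simp [hx, abs_of_pos X0]
  have hσa : |σ| = 1 := by rcases hσ with rfl | rfl <;> simp
  have p1 : |B * x| ≤ 1.4 * X := by
    rw [abs_mul, hxa, abs_of_pos (show 0 < B by linarith)]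
    gcongr
  have p2 : |B * y| ≤ B * (X / 2) := by
    rw [abs_mul, abs_of_pos (show 0 < B by linarith)]
    gcongr
  have p3 : |C * (x * y)| ≤ 0.49 * (X * 1) := by
    rw [abs_mul, abs_mul, hxa]
    gcongr
    linarith
  have p4 : 0.012 * X ≤ B * X := by gcongr
  have p5 : B * X ≤ 1.4 * X := by gcongr
  have p6 : B * x = -σ * (B * X) := by rw [hx]; ring
  have r0 : A - B * (x + y * (-1 / 2) ^ 3) + C * (x * (y * (-1 / 2) ^ 3)) =
    A - B * x + B * y / 8 - C * (x * y) / 8 := by ring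
  have r1 : A - B * (x * (-1 / 2) ^ 1 + y * (-1 / 2) ^ 2) +
      C * (x * (-1 / 2) ^ 1 * (y * (-1 / 2) ^ 2)) =
    A + B * x / 2 - B * y / 4 - C * (x * y) / 8 := by ring
  have r2 : A - B * (x * (-1 / 2) ^ 2 + y * (-1 / 2) ^ 1) +
      C * (x * (-1 / 2) ^ 2 * (y * (-1 / 2) ^ 1)) =
    A - B * x / 4 + B * y / 2 - C * (x * y) / 8 := by ring
  have r3 : A - B * (x * (-1 / 2) ^ 3 + y) + C * (x * (-1 / 2) ^ 3 * y) =
    A + B * x / 8 - B * y - C * (x * y) / 8 := by ring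
  have r4 : B * (X / 2) = B * X / 2 := by ring
  rw [r0] at e0
  rw [r1] at e1
  rw [r2] at e2
  rw [r3] at e3
  rw [r4] at p2
  clear r0 r1 r2 r3 r4 hx hxa hy hC B0 B1
  generalize B * x = u at *
  generalize B * y = v at *
  generalize B * X = z at *
  generalize C * (x * y) = w at *
  obtain ⟨q1, q1'⟩ := abs_le.1 p1
  obtain ⟨q2, q2'⟩ := abs_le.1 p2
  obtain ⟨q3, q3'⟩ := abs_le.1 p3
  obtain ⟨f0, f0'⟩ := abs_le.1 e0
  obtain ⟨f1, f1'⟩ := abs_le.1 e1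
  obtain ⟨f2, f2'⟩ := abs_le.1 e2
  obtain ⟨f3, f3'⟩ := abs_le.1 e3
  have m1 : 0.002 * X ≤ σ * (D0 + D3 - D1 - D2) := by
    rcases hσ with rfl | rfl <;> linarith
  clear p6
  have d0 : |D0 - A| ≤ 3 * X := abs_le.2 ⟨by linarith, by linarith⟩
  have d1 : |D1 - A| ≤ 3 * X := abs_le.2 ⟨by linarith, by linarith⟩
  have d2 : |D2 - A| ≤ 3 * X := abs_le.2 ⟨by linarith, by linarith⟩
  have d3 : |D3 - A| ≤ 3 * X := abs_le.2 ⟨by linarith, by linarith⟩
  have m2 : |σ * ((D0 - A) * (D3 - A))| ≤ 3 * X * (3 * X) := by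
    rw [abs_mul, hσa, one_mul, abs_mul]
    gcongr
  have m3 : |σ * ((D1 - A) * (D2 - A))| ≤ 3 * X * (3 * X) := by
    rw [abs_mul, hσa, one_mul, abs_mul]
    gcongr
  have m4 := mul_le_mul hA m1 (by positivity) (by linarith)
  have m5 : X * X ≤ 0.000001 * X := by gcongr
  have m6 : σ * (D0 * D3 - D1 * D2) = A * (σ * (D0 + D3 - D1 - D2)) +
      σ * ((D0 - A) * (D3 - A)) - σ * ((D1 - A) * (D2 - A)) := by ring
  have m7 : 3 * X * (3 * X) = 9 * (X * X) := by ring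
  rw [m6]
  rw [m7] at m2 m3
  have m8 := (abs_le.1 m2).1
  have m9 := (abs_le.1 m3).2
  generalize A * (σ * (D0 + D3 - D1 - D2)) = s1 at *
  generalize σ * ((D0 - A) * (D3 - A)) = s2 at *
  generalize σ * ((D1 - A) * (D2 - A)) = s3 at *
  generalize X * X = s4 at *
  linarith

lemma region_one (m k : ℕ) (hm : 33 ≤ m) (hk : m + 1 ≤ k) : 0 < DL m k := by
  obtain ⟨A, B, C, hA, B0, B1, hC, h⟩ := DD_est.1
  have X1 : (1 / 2 : ℝ) ^ m ≤ (1 / 2) ^ 33 := pow_le_pow_of_le_one (by norm_num) (by norm_num) hm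
  have Y1 : (1 / 3 : ℝ) ^ m ≤ (1 / 3) ^ 33 := pow_le_pow_of_le_one (by norm_num) (by norm_num) hm
  have Y2 : (1 / 3 : ℝ) ^ m ≤ (2 / 3) ^ 33 * (1 / 2) ^ m := by
    rw [show (1 / 3 : ℝ) = 2 / 3 * (1 / 2) by norm_num, mul_pow]
    exact mul_le_mul_of_nonneg_right (pow_le_pow_of_le_one (by norm_num) (by norm_num) hm)
      (by positivity)
  have key : ∀ a b : ℕ, m ≤ a → m ≤ b → 2.7 * (120 * (1 / 3 : ℝ) ^ a) + 2.7 * (120 * (1 / 3) ^ b) +
      120 * (1 / 3) ^ a * (120 * (1 / 3) ^ b) ≤ 0.0011 * (1 / 2) ^ m := by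
    intro a b ha hb
    have a1 : (1 / 3 : ℝ) ^ a ≤ (1 / 3) ^ m := pow_le_pow_of_le_one (by norm_num) (by norm_num) ha
    have b1 : (1 / 3 : ℝ) ^ b ≤ (1 / 3) ^ m := pow_le_pow_of_le_one (by norm_num) (by norm_num) hb
    have c1 : (1 / 3 : ℝ) ^ a * (1 / 3) ^ b ≤ (1 / 3) ^ 33 * (1 / 3) ^ m :=
      mul_le_mul (a1.trans Y1) b1 (by positivity) (by positivity)
    have c2 : (0 : ℝ) ≤ (1 / 3) ^ m := by positivity
    have c3 : (0 : ℝ) ≤ (1 / 2) ^ m := by positivity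
    nlinarith
  have e0 := (h m (k + 3)).trans (key _ _ (by omega) (by omega))
  have e1 := (h (m + 1) (k + 2)).trans (key _ _ (by omega) (by omega))
  have e2 := (h (m + 2) (k + 1)).trans (key _ _ (by omega) (by omega))
  have e3 := (h (m + 3) k).trans (key _ _ (by omega) (by omega))
  rw [pow_add] at e0 e3
  rw [pow_add, pow_add] at e1 e2
  refine alg (neg_one_pow_eq_or ℝ _) ?_ (by positivity) (X1.trans (by norm_num)) ?_ hA B0 B1 hC
    e0 e1 e2 e3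
  · rw [pow_succ, mul_neg_one, neg_neg, ← mul_pow]
    norm_num
  · rw [abs_half_pow]
    refine (pow_le_pow_of_le_one (by norm_num) (by norm_num) hk).trans (le_of_eq ?_)
    rw [pow_succ]
    ring

lemma region_two (m k0 k : ℕ) (hm : 1 ≤ m) (h0 : 54 ≤ k0) (hk : k0 ≤ k)
    (h : 30000 * (1 / 2) ^ 54 < DL m k0) : 0 < DL m k := by
  obtain ⟨J, hJ⟩ := DD_est.2
  have key : ∀ k, 54 ≤ k → |DL m k - (-1) ^ (m + 1) * (J m * J (m + 3) - J (m + 1) * J (m + 2))|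
      ≤ 15000 * (1 / 2) ^ 54 := by
    intro k hk
    have g : ∀ a b, 1 ≤ a → 54 ≤ b → |DD a b - J a| ≤ 43 * (1 / 2) ^ 54 := fun a b ha hb =>
      ((hJ a ha).2 b (by omega)).trans (mul_le_mul_of_nonneg_left
        (pow_le_pow_of_le_one (by norm_num) (by norm_num) hb) (by norm_num))
    have p1 := prod_est (g m (k + 3) hm (by omega)) (g (m + 3) k (by omega) hk) (hJ _ hm).1
      (hJ _ (by omega)).1
    have p2 := prod_est (g (m + 1) (k + 2) (by omega) (by omega))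
      (g (m + 2) (k + 1) (by omega) (by omega)) (hJ _ (by omega)).1 (hJ _ (by omega)).1
    rw [DL, ← mul_sub, abs_mul, abs_pow, abs_neg, abs_one, one_pow, one_mul]
    have q1 := abs_le.1 p1
    have q2 := abs_le.1 p2
    rw [abs_le]
    constructor <;> linarith [q1.1, q1.2, q2.1, q2.2]
  have k1 := abs_le.1 (key k0 h0)
  have k2 := abs_le.1 (key k (by omega))
  linarith [k1.2, k2.1]

lemma pos_of_DL (m j : ℕ) (h : 0 < DL m (j + 1)) : 0 < dl (m + 1) (m + j + 5) := by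
  rw [DL_eq] at h
  exact pos_of_mul_pos_left h (sq_nonneg _)

theorem dl_pos (i n : ℕ) (h2 : 2 ≤ i) (hn : 2 * i + 3 ≤ n) (h7 : ¬ (n = 7 ∧ i = 2)) :
    0 < dl i n := by
  obtain ⟨m, rfl⟩ : ∃ m, i = m + 1 := ⟨i - 1, by omega⟩
  obtain ⟨j, rfl⟩ : ∃ j, n = m + j + 5 := ⟨n - m - 5, by omega⟩
  by_cases hm : 33 ≤ m
  · exact pos_of_DL _ _ (region_one _ _ hm (by omega))
  obtain ⟨f1, f2⟩ := finite_part (m + 1) h2 (by omega)
  by_cases h90 : m + j + 5 ≤ 90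
  · exact f2 _ hn h90 h7
  refine pos_of_DL _ _ (region_two m (85 - m + 1) _ (by omega) (by omega) (by omega) ?_)
  rw [DL_eq, show m + (85 - m) + 5 = 90 by omega, show m + (85 - m) + 4 = 89 by omega]
  have e1 : (WW : ℝ) = 1209 ^ 178 * 2 ^ 54 := by
    rw [WW, Nat.cast_mul, Nat.cast_pow, Nat.cast_pow]
    rfl
  have e2 : (VV : ℝ) = 30000 * (Nat.factorial 90 : ℝ) ^ 2 * 1000 ^ 178 := by
    unfold VV
    generalize Nat.factorial 90 = F
    rw [Nat.cast_mul, Nat.cast_mul, Nat.cast_pow, Nat.cast_pow, Nat.cast_ofNat,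
      Nat.cast_ofNat]
  rw [e1, e2] at f1
  have hF : (0 : ℝ) < Nat.factorial 90 := Nat.cast_pos.2 (Nat.factorial_pos 90)
  have hx : ((1209 : ℝ) / 1000) ^ 178 ≤ xx ^ 178 :=
    pow_le_pow_left₀ (by positivity) (by linarith [xx_bd.1]) _
  rw [div_pow] at hx
  rw [one_div, inv_pow, div_pow, ← pow_mul, show 89 * 2 = 178 from rfl]
  have hP : (0 : ℝ) < 1209 ^ 178 := by positivity
  have hQ : (0 : ℝ) < 1000 ^ 178 := by positivity
  have hT : (0 : ℝ) < 2 ^ 54 := by positivity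
  generalize (Nat.factorial 90 : ℝ) = F at *
  generalize (1209 : ℝ) ^ 178 = P at *
  generalize (1000 : ℝ) ^ 178 = Q at *
  generalize (2 : ℝ) ^ 54 = T at *
  generalize xx ^ 178 = Z at *
  generalize dl (m + 1) 90 = D at *
  have hD : 0 < D := by
    have : 0 < D * (P * T) := lt_trans (by positivity) f1
    exact pos_of_mul_pos_left this (by positivity)
  calc 30000 * T⁻¹ = 30000 * F ^ 2 * Q / (T * Q * F ^ 2) := by field_simp
    _ < D * (P * T) / (T * Q * F ^ 2) := by gcongr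
    _ = D * (P / Q / F ^ 2) := by field_simp
    _ ≤ D * (Z / F ^ 2) := by gcongr

end Pool.Agent.P.MP_f8a98e_co
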