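import Mathlib

/-! Elementary lemmas on convolutions of real sequences with a weighted norm. -/

namespace Pool.Agent.P.MP_f8a98e_co

open Finset

/-- convolution -/
def cv (a b : ℕ → ℝ) (n : ℕ) : ℝ := ∑ p ∈ antidiagonal n, a p.1 * b p.2

/-- weighted norm at most `M` -/
def Nb (a : ℕ → ℝ) (M : ℝ) : Prop := ∀ N, ∑ j ∈ range N, |a j| * 3 ^ j ≤ M

lemma cv_mk (a b : ℕ → ℝ) : PowerSeries.mk (cv a b) = PowerSeries.mk a * PowerSeries.mk b := by
  ext n
  simp [cv, PowerSeries.coeff_mul]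

lemma exists_eta (c K φ : ℕ → ℝ) (hK : K 0 = 1) :
    ∃ η : ℕ → ℝ, (∀ n, cv η K n = φ n) ∧ ∀ n, cv (cv c K) η n = cv c φ n := by
  have h : PowerSeries.mk K * (PowerSeries.mk K)⁻¹ = 1 :=
    PowerSeries.mul_inv_cancel _ (by simp [hK])
  have h1 : PowerSeries.mk (fun n => PowerSeries.coeff n ((PowerSeries.mk K)⁻¹ *
      PowerSeries.mk φ)) = (PowerSeries.mk K)⁻¹ * PowerSeries.mk φ := by
    ext n
    simp
  refine ⟨fun n => PowerSeries.coeff n ((PowerSeries.mk K)⁻¹ * PowerSeries.mk φ),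
    fun n => ?_, fun n => ?_⟩
  · rw [← PowerSeries.coeff_mk n φ, ← PowerSeries.coeff_mk n (cv _ _), cv_mk, h1]
    congr 1
    linear_combination PowerSeries.mk φ * h
  · rw [← PowerSeries.coeff_mk n (cv c φ), ← PowerSeries.coeff_mk n (cv _ _), cv_mk, cv_mk,
      cv_mk, h1]
    congr 1
    linear_combination PowerSeries.mk c * PowerSeries.mk φ * h

lemma nb_eta (ψ η e : ℕ → ℝ) (h : ∀ n, cv ψ η n = e n) (h0 : ψ 0 = 1) (τ E : ℝ)
    (hτ : ∀ N, ∑ j ∈ range N, |ψ (j + 1)| * 3 ^ (j + 1) ≤ τ) (hE : Nb e E) (h1 : τ < 1) :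
    Nb η (E / (1 - τ)) := by
  have hE0 : 0 ≤ E := by simpa using hE 0
  have hM : 0 ≤ E / (1 - τ) := div_nonneg hE0 (by linarith)
  intro N
  induction N using Nat.strong_induction_on with
  | _ N ih =>
    cases N with
    | zero => simpa using hM
    | succ N =>
      have h2 := hE (N + 1)
      rw [sum_range_succ'] at h2 ⊢
      have h3 : η 0 = e 0 := by rw [← h 0]; simp [cv, h0]
      have h4 : ∀ n, |η (n + 1)| * 3 ^ (n + 1) ≤ |e (n + 1)| * 3 ^ (n + 1) +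
          ∑ k ∈ range (n + 1), (|ψ (k + 1)| * 3 ^ (k + 1)) * (|η (n - k)| * 3 ^ (n - k)) := by
        intro n
        have h5 : η (n + 1) = e (n + 1) - ∑ k ∈ range (n + 1), ψ (k + 1) * η (n - k) := by
          rw [← h, cv, Nat.sum_antidiagonal_succ, h0,
            Nat.sum_antidiagonal_eq_sum_range_succ (fun i j => ψ (i + 1) * η j)]
          ring
        have h6 : |η (n + 1)| ≤ |e (n + 1)| + ∑ k ∈ range (n + 1), |ψ (k + 1)| * |η (n - k)| := by
          rw [h5]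
          refine (abs_sub _ _).trans (add_le_add le_rfl ((abs_sum_le_sum_abs _ _).trans
            (le_of_eq (sum_congr rfl fun k _ => abs_mul _ _))))
        refine (mul_le_mul_of_nonneg_right h6 (by positivity)).trans (le_of_eq ?_)
        rw [add_mul, sum_mul]
        congr 1
        refine sum_congr rfl fun k hk => ?_
        have : n + 1 = (k + 1) + (n - k) := by have := mem_range.1 hk; omega
        rw [this, pow_add]
        ring
      have h7 := sum_le_sum fun n (_ : n ∈ range N) => h4 n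
      rw [sum_add_distrib, sum_range_diag_flip N
        (fun i j => (|ψ (i + 1)| * 3 ^ (i + 1)) * (|η j| * 3 ^ j))] at h7
      have h8 : ∑ m ∈ range N, ∑ k ∈ range (N - m),
          (|ψ (m + 1)| * 3 ^ (m + 1)) * (|η k| * 3 ^ k) ≤ τ * (E / (1 - τ)) := by
        refine le_trans (sum_le_sum fun m _ => ?_) ((sum_mul _ _ _).symm.trans_le
          (mul_le_mul_of_nonneg_right (hτ N) hM))
        rw [← mul_sum]
        exact mul_le_mul_of_nonneg_left (ih _ (by omega)) (by positivity)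
      have h9 : E + τ * (E / (1 - τ)) = E / (1 - τ) := by
        have : 1 - τ ≠ 0 := by linarith
        field_simp
        ring
      rw [h3]
      linarith

lemma summ_abs {f : ℕ → ℝ} {c : ℝ} (h : ∀ N, ∑ j ∈ range N, |f j| ≤ c) :
    Summable fun j => ‖f j‖ := summable_of_sum_range_le (fun _ => norm_nonneg _) h

lemma tsum_abs_le {f : ℕ → ℝ} {c : ℝ} (h : ∀ N, ∑ j ∈ range N, |f j| ≤ c) :
    |∑' j, f j| ≤ c :=
  (norm_tsum_le_tsum_norm (summ_abs h)).trans
    (Real.tsum_le_of_sum_range_le (fun _ => norm_nonneg _) h)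

lemma Nb.summ {a : ℕ → ℝ} {M r : ℝ} (h : Nb a M) (hr : |r| ≤ 3) :
    Summable fun j => ‖a j * r ^ j‖ :=
  summ_abs (c := M) fun N => le_trans (sum_le_sum fun j _ => by
    rw [abs_mul, abs_pow]
    gcongr) (h N)

lemma cauchy {ψ η e : ℕ → ℝ} (h : ∀ n, cv ψ η n = e n) {M M' r : ℝ} (h1 : Nb ψ M)
    (h2 : Nb η M') (hr : |r| ≤ 3) :
    (∑' j, ψ j * r ^ j) * ∑' j, η j * r ^ j = ∑' j, e j * r ^ j := by
  rw [tsum_mul_tsum_eq_tsum_sum_antidiagonal_of_summable_norm (h1.summ hr) (h2.summ hr)]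
  refine tsum_congr fun n => ?_
  rw [← h, cv, sum_mul]
  refine sum_congr rfl fun p hp => ?_
  rw [← mem_antidiagonal.1 hp, pow_add]
  ring

lemma Nb.tail {a : ℕ → ℝ} {M r : ℝ} (h : Nb a M) (hr : |r| ≤ 3) (k : ℕ) :
    |∑ j ∈ range k, a j * r ^ j - ∑' j, a j * r ^ j| ≤ M * (|r| / 3) ^ k := by
  rw [← (h.summ hr).of_norm.sum_add_tsum_nat_add k, sub_add_cancel_left, abs_neg]
  refine tsum_abs_le fun N => ?_
  have h1 := h (k + N)
  rw [sum_range_add] at h1
  have h2 : 0 ≤ ∑ j ∈ range k, |a j| * 3 ^ j := by positivity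
  refine le_trans (sum_le_sum fun j _ => ?_) ((sum_mul _ _ _).symm.trans_le
    (mul_le_mul_of_nonneg_right (show ∑ j ∈ range N, |a (k + j)| * 3 ^ (k + j) ≤ M by linarith)
      (by positivity)))
  rw [abs_mul, abs_pow, add_comm j k, mul_assoc, pow_add, pow_add, mul_assoc, mul_comm (3 ^ j),
    ← mul_assoc ((3 : ℝ) ^ k), ← mul_pow, mul_div_cancel₀ _ (by norm_num)]
  gcongr

lemma Nb.head {a : ℕ → ℝ} {M r : ℝ} (h : Nb a M) (hr : 3 ≤ |r|) (m : ℕ) :
    |∑ j ∈ range (m + 1), a j * r ^ j| ≤ M * (|r| / 3) ^ m := by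
  refine (abs_sum_le_sum_abs _ _).trans (le_trans (sum_le_sum fun j hj => ?_)
    ((sum_mul _ _ _).symm.trans_le (mul_le_mul_of_nonneg_right (h (m + 1)) (by positivity))))
  have h1 : (|r| / 3) ^ j ≤ (|r| / 3) ^ m :=
    pow_le_pow_right₀ (by linarith) (by have := mem_range.1 hj; omega)
  rw [abs_mul, abs_pow, mul_assoc]
  refine mul_le_mul_of_nonneg_left (le_trans (le_of_eq ?_)
    (mul_le_mul_of_nonneg_left h1 (by positivity))) (abs_nonneg _)
  rw [← mul_pow, mul_div_cancel₀ _ (by norm_num)]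

/-- coefficients of the deflating rational function -/
noncomputable def KK (j : ℕ) : ℝ :=
  20 / 27 + 10 / 27 * (-1 / 2) ^ j - 5 / 81 * (1 / 4) ^ j - 4 / 81 * (-1 / 5) ^ j

lemma cv_geo (h : ℕ → ℝ) (ρ r : ℝ) (hr : ρ * r = 1) (m : ℕ) :
    ∑ p ∈ antidiagonal m, h p.1 * ρ ^ p.2 = ρ ^ m * ∑ i ∈ range (m + 1), h i * r ^ i := by
  rw [Nat.sum_antidiagonal_eq_sum_range_succ (fun i j => h i * ρ ^ j), mul_sum]
  refine sum_congr rfl fun i hi => ?_
  obtain ⟨k, rfl⟩ : ∃ k, m = i + k := ⟨m - i, by have := mem_range.1 hi; omega⟩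
  rw [add_tsub_cancel_left, pow_add]
  have : ρ ^ i * r ^ i = 1 := by rw [← mul_pow, hr, one_pow]
  linear_combination (-(h i * ρ ^ k)) * this

lemma cv_KK (h : ℕ → ℝ) (m : ℕ) : cv h KK m =
    20 / 27 * ∑ i ∈ range (m + 1), h i * 1 ^ i +
    10 / 27 * ((-1 / 2) ^ m * ∑ i ∈ range (m + 1), h i * (-2) ^ i) -
    5 / 81 * ((1 / 4) ^ m * ∑ i ∈ range (m + 1), h i * 4 ^ i) -
    4 / 81 * ((-1 / 5) ^ m * ∑ i ∈ range (m + 1), h i * (-5) ^ i) := by
  have h1 := cv_geo h 1 1 (by norm_num) m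
  rw [one_pow, one_mul] at h1
  rw [← h1, ← cv_geo h _ _ (by norm_num), ← cv_geo h _ _ (by norm_num),
    ← cv_geo h _ _ (by norm_num), cv]
  simp only [mul_sum, ← sum_add_distrib, ← sum_sub_distrib, KK]
  exact sum_congr rfl fun p _ => by ring

/-- asymptotics of `η * K` -/
lemma cv_KK_approx {η : ℕ → ℝ} {M : ℝ} (h : Nb η M) (m : ℕ) :
    |cv η KK m - (20 / 27 * ∑' j, η j * 1 ^ j + 10 / 27 * ((-1 / 2) ^ m * ∑' j, η j * (-2) ^ j))|
      ≤ 49 / 81 * M * (1 / 3) ^ m := by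
  have h1 := h.tail (r := 1) (by norm_num) (m + 1)
  have h2 : |(-1 / 2) ^ m * (∑ i ∈ range (m + 1), η i * (-2) ^ i - ∑' j, η j * (-2) ^ j)| ≤
      2 / 3 * M * (1 / 3) ^ m := by
    rw [abs_mul, abs_pow]
    refine (mul_le_mul_of_nonneg_left (h.tail (r := -2) (by norm_num) (m + 1))
      (by positivity)).trans (le_of_eq ?_)
    rw [show (1 / 3 : ℝ) = |-1 / 2| * (|-2| / 3) by norm_num [abs_div], mul_pow, pow_succ]
    norm_num
    ring
  have h3 : |(1 / 4) ^ m * ∑ i ∈ range (m + 1), η i * 4 ^ i| ≤ M * (1 / 3) ^ m := by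
    rw [abs_mul, abs_pow]
    refine (mul_le_mul_of_nonneg_left (h.head (r := 4) (by norm_num) m)
      (by positivity)).trans (le_of_eq ?_)
    rw [show (1 / 3 : ℝ) = |1 / 4| * (|4| / 3) by norm_num [abs_div], mul_pow]
    ring
  have h4 : |(-1 / 5) ^ m * ∑ i ∈ range (m + 1), η i * (-5) ^ i| ≤ M * (1 / 3) ^ m := by
    rw [abs_mul, abs_pow]
    refine (mul_le_mul_of_nonneg_left (h.head (r := -5) (by norm_num) m)
      (by positivity)).trans (le_of_eq ?_)
    rw [show (1 / 3 : ℝ) = |-1 / 5| * (|-5| / 3) by norm_num [abs_div], mul_pow]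
    ring
  rw [abs_one, pow_succ] at h1
  rw [cv_KK, abs_le] at *
  constructor <;> linarith [h1.1, h1.2, h2.1, h2.2, h3.1, h3.2, h4.1, h4.2]

end Pool.Agent.P.MP_f8a98e_co
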