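import Pool.Agent.P.MP_f8a98e_co.Conv
import Pool.Agent.P.MP_f8a98e_co.Ser

/-! Numerical bounds for the deflated cosine series. -/

namespace Pool.Agent.P.MP_f8a98e_co

open Finset Complex

noncomputable def cc (i : ℕ) : ℝ := gam i * xx ^ i / om
noncomputable def psi : ℕ → ℝ := cv cc KK

lemma om_bd : 0.866025403784 < om ∧ om < 0.866025403785 := by
  have h := om_sq
  have h0 := om_pos
  constructor <;> nlinarith

lemma th_bd : 1.047197551196 < th ∧ th < 1.047197551197 := by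
  have h1 := Real.pi_gt_d20
  have h2 := Real.pi_lt_d20
  unfold th
  constructor <;> linarith

lemma xx_om : xx * om = th := div_mul_cancel₀ _ om_pos.ne'

lemma xx_bd : 1.209199576 < xx ∧ xx < 1.2091995762 := by
  have h1 := om_bd
  have h2 := th_bd
  unfold xx
  rw [lt_div_iff₀ om_pos, div_lt_iff₀ om_pos]
  constructor <;> linarith [h1.1, h1.2, h2.1, h2.2]

lemma cc_eq (i : ℕ) : cc i = (zeta * ((th * I) ^ i / i.factorial)).re / om := by
  have : zeta * ((th * I) ^ i / i.factorial) =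
      ((xx ^ i / i.factorial : ℝ) : ℂ) * (zeta * (om * I) ^ i) := by
    rw [← xx_om]
    push_cast
    ring
  rw [this, re_ofReal_mul, cc, gam]
  ring

lemma cc_zero : cc 0 = 1 := by
  simp [cc, gam, zeta, om_pos.ne']

lemma cc_one : cc 1 = -(xx / 2) := by
  have := om_pos.ne'
  simp [cc, gam, zeta]
  field_simp

lemma cc_two (i : ℕ) : cc (i + 2) = -(th ^ 2) * cc i / ((i + 1) * (i + 2)) := by
  have : zeta * ((th * I) ^ (i + 2) / (i + 2).factorial) =
      ((-(th ^ 2) / ((i + 1) * (i + 2)) : ℝ) : ℂ) * (zeta * ((th * I) ^ i / i.factorial)) := by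
    rw [Nat.factorial_succ, Nat.factorial_succ, pow_add, mul_pow _ _ 2, I_sq]
    have h1 : (i.factorial : ℂ) ≠ 0 := by exact_mod_cast i.factorial_ne_zero
    have h2 : (i + 1 : ℂ) ≠ 0 := by exact_mod_cast i.succ_ne_zero
    have h3 : (i + 2 : ℂ) ≠ 0 := by exact_mod_cast (i + 1).succ_ne_zero
    have h4 : (i + 1 + 1 : ℂ) ≠ 0 := by exact_mod_cast (i + 1).succ_ne_zero
    push_cast
    field_simp
    ring
  rw [cc_eq, cc_eq, this, re_ofReal_mul]
  ring

lemma norm_zeta : ‖zeta‖ = 1 := by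
  have h : ‖zeta‖ ^ 2 = 1 := by
    rw [Complex.sq_norm, normSq_apply]
    simp only [zeta, add_re, ofReal_re, div_ofNat_re, I_re, add_im, ofReal_im, div_ofNat_im, I_im]
    have := om_sq
    nlinarith
  have h0 := norm_nonneg zeta
  nlinarith

lemma zeta_exp (k : ℤ) : (zeta * exp (th * ((3 * k + 1 : ℤ) : ℝ) * I)).re = 0 := by
  have h1 : th * ((3 * k + 1 : ℤ) : ℝ) = Real.pi / 3 + k * Real.pi := by
    unfold th
    push_cast
    ring
  rw [← ofReal_mul, h1, mul_re, exp_ofReal_mul_I_re, exp_ofReal_mul_I_im,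
    Real.cos_add_int_mul_pi, Real.sin_add_int_mul_pi, Real.cos_pi_div_three,
    Real.sin_pi_div_three]
  simp only [zeta, add_re, ofReal_re, div_ofNat_re, I_re, add_im, ofReal_im, div_ofNat_im, I_im,
    om]
  ring

lemma cc_head (k : ℤ) (r : ℝ) (hk : r = ((3 * k + 1 : ℤ) : ℝ)) (hr : |r| ≤ 5) (n : ℕ)
    (hn : 11 ≤ n) :
    |∑ i ∈ range n, cc i * r ^ i| ≤ 2 / om * (th ^ n / n.factorial) * |r| ^ n := by
  have h0 := th_bd
  have hth : 0 < th := by linarith [h0.1]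
  have h1 : ∑ i ∈ range n, cc i * r ^ i =
      -(zeta * (exp (th * r * I) - ∑ i ∈ range n, (th * r * I) ^ i / i.factorial)).re / om := by
    rw [mul_sub, sub_re, hk, zeta_exp, ← hk, zero_sub, neg_neg, mul_sum, re_sum, sum_div]
    refine sum_congr rfl fun i _ => ?_
    have : zeta * ((th * r * I) ^ i / i.factorial) =
        ((r ^ i : ℝ) : ℂ) * (zeta * ((th * I) ^ i / i.factorial)) := by
      push_cast
      ring
    rw [this, re_ofReal_mul, cc_eq]
    ring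
  have h2 : ‖(th * r * I : ℂ)‖ = th * |r| := by
    simp [abs_of_pos hth]
  have h3 := Complex.exp_bound' (x := th * r * I) (n := n) (by
    rw [h2, div_le_iff₀ (by positivity)]
    have : (12 : ℝ) ≤ (n.succ : ℕ) := by exact_mod_cast Nat.succ_le_succ hn
    nlinarith [h0.2])
  rw [h1, abs_div, abs_neg, abs_of_pos om_pos, div_le_iff₀ om_pos]
  refine (abs_re_le_norm _).trans ?_
  rw [norm_mul, norm_zeta, one_mul]
  refine h3.trans (le_of_eq ?_)
  have := om_pos.ne'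
  rw [h2, mul_pow]
  field_simp

lemma pi_fact (j : ℕ) : Real.pi ^ (j + 11) / (j + 11).factorial ≤ 0.0074 * 0.27 ^ j := by
  have h0 := Real.pi_pos
  have h1 := Real.pi_lt_d4
  induction j with
  | zero =>
    have : Real.pi ^ 11 ≤ 3.1416 ^ 11 := pow_le_pow_left₀ h0.le h1.le _
    rw [div_le_iff₀ (by positivity)]
    norm_num [Nat.factorial] at this ⊢
    linarith
  | succ j ih =>
    have h2 : Real.pi ^ (j + 1 + 11) / (j + 1 + 11).factorial =
        Real.pi ^ (j + 11) / (j + 11).factorial * (Real.pi / (j + 12)) := by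
      rw [show j + 1 + 11 = j + 11 + 1 by ring, Nat.factorial_succ, pow_succ]
      push_cast
      field_simp
      ring
    have h3 : Real.pi / (j + 12) ≤ 0.27 := by
      rw [div_le_iff₀ (by positivity)]
      have : (0 : ℝ) ≤ j := by positivity
      linarith
    rw [h2, pow_succ _ j, ← mul_assoc]
    exact mul_le_mul ih h3 (by positivity) (by positivity)

lemma psi_tail (j : ℕ) : |psi (j + 10)| * 3 ^ (j + 10) ≤ 0.0113 * 0.27 ^ j := by
  have key : ∀ (k : ℤ) (r ρ : ℝ), r = ((3 * k + 1 : ℤ) : ℝ) → |r| ≤ 5 → ρ * r = 1 →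
      |ρ ^ (j + 10) * ∑ i ∈ range (j + 10 + 1), cc i * r ^ i| ≤
        2 / om * (th ^ (j + 11) / (j + 11).factorial) * |r| := by
    intro k r ρ hk hr hρ
    rw [abs_mul]
    refine (mul_le_mul_of_nonneg_left (cc_head k r hk hr _ (by omega)) (abs_nonneg _)).trans
      (le_of_eq ?_)
    have : |ρ| ^ (j + 10) * |r| ^ (j + 10) = 1 := by rw [← mul_pow, ← abs_mul, hρ]; simp
    rw [abs_pow, pow_succ |r|]
    linear_combination (2 / om * (th ^ (j + 11) / (j + 11).factorial) * |r|) * this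
  have h1 := key 0 1 1 (by norm_num) (by norm_num) (by norm_num)
  have h2 := key (-1) (-2) (-1 / 2) (by norm_num) (by norm_num) (by norm_num)
  have h3 := key 1 4 (1 / 4) (by norm_num) (by norm_num) (by norm_num)
  have h4 := key (-2) (-5) (-1 / 5) (by norm_num) (by norm_num) (by norm_num)
  rw [one_pow, one_mul, abs_one] at h1
  rw [show |(-2 : ℝ)| = 2 by norm_num] at h2
  rw [show |(4 : ℝ)| = 4 by norm_num] at h3
  rw [show |(-5 : ℝ)| = 5 by norm_num] at h4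
  have h5 : |psi (j + 10)| ≤ 160 / 81 * (2 / om * (th ^ (j + 11) / (j + 11).factorial)) := by
    rw [psi, cv_KK, abs_le] at *
    constructor <;> linarith [h1.1, h1.2, h2.1, h2.2, h3.1, h3.2, h4.1, h4.2]
  refine (mul_le_mul_of_nonneg_right h5 (by positivity)).trans ?_
  have h6 : 160 / 81 * (2 / om * (th ^ (j + 11) / (j + 11).factorial)) * 3 ^ (j + 10) =
      320 / 243 / om * (Real.pi ^ (j + 11) / (j + 11).factorial) := by
    rw [th, div_pow, pow_succ (3 : ℝ) (j + 10)]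
    have := om_pos.ne'
    field_simp
    norm_num
  have h7 : 320 / 243 / om ≤ 1.521 := by
    rw [div_le_iff₀ om_pos]
    linarith [om_bd.1]
  have h8 := Real.pi_pos
  rw [h6]
  refine (mul_le_mul h7 (pi_fact j) (by positivity) (by norm_num)).trans ?_
  have : (0 : ℝ) ≤ 0.27 ^ j := by positivity
  linarith

lemma psi_zero : psi 0 = 1 := by
  simp [psi, cv, cc_zero, KK]
  norm_num

lemma psi_small : |psi 1| ≤ 0.0547 ∧ |psi 2| ≤ 0.0534 ∧ |psi 3| ≤ 0.002501 ∧
    |psi 4| ≤ 0.001209 ∧ |psi 5| ≤ 0.00005 ∧ |psi 6| ≤ 0.000016 ∧ |psi 7| ≤ 0.0000006 ∧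
    |psi 8| ≤ 0.00000015 ∧ |psi 9| ≤ 0.00000001 := by
  have h0 := th_bd
  have hx := xx_bd
  obtain ⟨s, hs⟩ : ∃ s, s = th ^ 2 := ⟨_, rfl⟩
  have s0 : 1.0966227112 ≤ s := by rw [hs]; nlinarith [h0.1]
  have s1 : s ≤ 1.0966227113 := by rw [hs]; nlinarith [h0.1, h0.2]
  have c0 := cc_zero
  have c1 := cc_one
  have c2 := cc_two 0
  have c3 := cc_two 1
  have c4 := cc_two 2
  have c5 := cc_two 3
  have c6 := cc_two 4
  have c7 := cc_two 5
  have c8 := cc_two 6
  have c9 := cc_two 7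
  rw [← hs] at c2 c3 c4 c5 c6 c7 c8 c9
  norm_num at c2 c3 c4 c5 c6 c7 c8 c9
  have lo : ∀ k : ℕ, 1.0966227112 ^ k ≤ s ^ k := fun k => pow_le_pow_left₀ (by norm_num) s0 k
  have hi : ∀ k : ℕ, s ^ k ≤ 1.0966227113 ^ k := fun k => pow_le_pow_left₀ (by linarith) s1 k
  have lo' : ∀ k : ℕ, 1.0966227112 ^ k * 1.209199576 ≤ s ^ k * xx := fun k =>
    mul_le_mul (lo k) hx.1.le (by norm_num) (pow_nonneg (by linarith) _)
  have hi' : ∀ k : ℕ, s ^ k * xx ≤ 1.0966227113 ^ k * 1.2091995762 := fun k =>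
    mul_le_mul (hi k) hx.2.le (by linarith [hx.1]) (by positivity)
  have e2 : cc 2 = -s ^ 1 / 2 := by rw [c2, c0]; ring
  have e3 : cc 3 = s ^ 1 * xx / 12 := by rw [c3, c1]; ring
  have e4 : cc 4 = s ^ 2 / 24 := by rw [c4, e2]; ring
  have e5 : cc 5 = -(s ^ 2 * xx) / 240 := by rw [c5, e3]; ring
  have e6 : cc 6 = -s ^ 3 / 720 := by rw [c6, e4]; ring
  have e7 : cc 7 = s ^ 3 * xx / 10080 := by rw [c7, e5]; ring
  have e8 : cc 8 = s ^ 4 / 40320 := by rw [c8, e6]; ring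
  have e9 : cc 9 = -(s ^ 4 * xx) / 725760 := by rw [c9, e7]; ring
  have l1 := lo 1
  have l2 := lo 2
  have l3 := lo 3
  have l4 := lo 4
  have u1 := hi 1
  have u2 := hi 2
  have u3 := hi 3
  have u4 := hi 4
  have l1' := lo' 1
  have l2' := lo' 2
  have l3' := lo' 3
  have l4' := lo' 4
  have u1' := hi' 1
  have u2' := hi' 2
  have u3' := hi' 3
  have u4' := hi' 4
  simp only [psi, cv, Nat.sum_antidiagonal_succ, Nat.antidiagonal_zero, sum_singleton, KK, abs_le,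
    Nat.reduceAdd, c0, c1, e2, e3, e4, e5, e6, e7, e8, e9]
  generalize s ^ 1 * xx = y1 at *
  generalize s ^ 2 * xx = y2 at *
  generalize s ^ 3 * xx = y3 at *
  generalize s ^ 4 * xx = y4 at *
  generalize s ^ 1 = z1 at *
  generalize s ^ 2 = z2 at *
  generalize s ^ 3 = z3 at *
  generalize s ^ 4 = z4 at *
  obtain ⟨hx1, hx2⟩ := hx
  norm_num at l1 l2 l3 l4 u1 u2 u3 u4 l1' l2' l3' l4' u1' u2' u3' u4' hx1 hx2 ⊢
  refine ⟨⟨?_, ?_⟩, ⟨?_, ?_⟩, ⟨?_, ?_⟩, ⟨?_, ?_⟩, ⟨?_, ?_⟩, ⟨?_, ?_⟩, ⟨?_, ?_⟩, ⟨?_, ?_⟩,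
    ⟨?_, ?_⟩⟩ <;> linarith

lemma psi_sum (r : ℝ) (h0 : 0 ≤ r) (h3 : r ≤ 3) (N : ℕ) :
    ∑ j ∈ range N, |psi (j + 1)| * r ^ (j + 1) ≤ 0.0547 * r + 0.0534 * r ^ 2 + 0.002501 * r ^ 3 +
      0.001209 * r ^ 4 + 0.00005 * r ^ 5 + 0.000016 * r ^ 6 + 0.0000006 * r ^ 7 +
      0.00000015 * r ^ 8 + 0.00000001 * r ^ 9 + 0.0155 := by
  have h1 : ∑ j ∈ range N, |psi (j + 1)| * r ^ (j + 1) ≤
      ∑ j ∈ range (9 + N), |psi (j + 1)| * r ^ (j + 1) :=
    sum_le_sum_of_subset_of_nonneg (range_subset_range.2 (by omega)) fun _ _ _ => by positivity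
  refine h1.trans ?_
  rw [sum_range_add]
  have h2 : ∑ j ∈ range N, |psi (9 + j + 1)| * r ^ (9 + j + 1) ≤ 0.0155 := by
    have h4 : ∀ N, ∑ j ∈ range N, (0.0113 : ℝ) * 0.27 ^ j ≤ 0.0155 * (1 - 0.27 ^ N) := by
      intro N
      induction N with
      | zero => simp
      | succ N ih =>
        rw [sum_range_succ, pow_succ]
        have : (0 : ℝ) ≤ 0.27 ^ N := by positivity
        linarith
    refine le_trans (sum_le_sum fun j _ => ?_) ((h4 N).trans ?_)
    · rw [show 9 + j + 1 = j + 10 by ring]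
      refine le_trans ?_ (psi_tail j)
      gcongr
    · have : (0 : ℝ) ≤ 0.27 ^ N := by positivity
      linarith
  obtain ⟨p1, p2, p3, p4, p5, p6, p7, p8, p9⟩ := psi_small
  simp only [sum_range_succ, sum_range_zero, Nat.reduceAdd, zero_add, pow_one]
  gcongr

end Pool.Agent.P.MP_f8a98e_co
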